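import Mathlib

/-!
# Asymptotic estimates
-/

set_option autoImplicit false

namespace Pool.Agent.H11.SAE

open Filter

theorem eventually_pow_le (C η : ℝ) (hη : 0 < η) : ∀ᶠ n : ℕ in atTop, ∀ e : ℕ,
    (e : ℝ) ≤ C * (n : ℝ) ^ (3 / 4 : ℝ) → 2 * ((n : ℝ) + 1) ^ e ≤ Real.exp (η * n) := by
  set C' : ℝ := max C 1 with hC'
  have hC'1 : 1 ≤ C' := le_max_right _ _
  have h1 : Tendsto (fun n : ℕ => (n : ℝ) ^ (1 / 8 : ℝ)) atTop atTop :=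
    (tendsto_rpow_atTop (by norm_num)).comp tendsto_natCast_atTop_atTop
  have h2 : ∀ᶠ n : ℕ in atTop, 17 * C' / η ≤ (n : ℝ) ^ (1 / 8 : ℝ) := h1.eventually_ge_atTop _
  filter_upwards [h2, eventually_ge_atTop 1] with n hn hn1 e he
  have hn0 : (1 : ℝ) ≤ n := by exact_mod_cast hn1
  have hnpos : (0 : ℝ) < n := by linarith
  have hlog : Real.log ((n : ℝ) + 1) ≤ 16 * (n : ℝ) ^ (1 / 8 : ℝ) := by
    have h3 := Real.log_le_rpow_div (x := (n : ℝ) + 1) (ε := 1 / 8) (by positivity) (by norm_num)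
    refine h3.trans ?_
    have h4 : ((n : ℝ) + 1) ^ (1 / 8 : ℝ) ≤ (2 * n) ^ (1 / 8 : ℝ) :=
      Real.rpow_le_rpow (by positivity) (by linarith) (by norm_num)
    have h5 : (2 * (n : ℝ)) ^ (1 / 8 : ℝ) = 2 ^ (1 / 8 : ℝ) * (n : ℝ) ^ (1 / 8 : ℝ) :=
      Real.mul_rpow (by norm_num) hnpos.le
    have h6 : (2 : ℝ) ^ (1 / 8 : ℝ) ≤ 2 := by
      calc (2 : ℝ) ^ (1 / 8 : ℝ) ≤ 2 ^ (1 : ℝ) :=
            Real.rpow_le_rpow_of_exponent_le (by norm_num) (by norm_num)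
        _ = 2 := Real.rpow_one 2
    have h7 : (0 : ℝ) ≤ (n : ℝ) ^ (1 / 8 : ℝ) := by positivity
    calc ((n : ℝ) + 1) ^ (1 / 8 : ℝ) / (1 / 8) = 8 * ((n : ℝ) + 1) ^ (1 / 8 : ℝ) := by ring
      _ ≤ 8 * (2 * (n : ℝ) ^ (1 / 8 : ℝ)) := by
          rw [h5] at h4
          have := mul_le_mul_of_nonneg_right h6 h7
          linarith
      _ = 16 * (n : ℝ) ^ (1 / 8 : ℝ) := by ring
  have h78 : (n : ℝ) ^ (3 / 4 : ℝ) * (n : ℝ) ^ (1 / 8 : ℝ) = (n : ℝ) ^ (7 / 8 : ℝ) := by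
    rw [← Real.rpow_add hnpos]
    norm_num
  have h88 : (n : ℝ) ^ (7 / 8 : ℝ) * (n : ℝ) ^ (1 / 8 : ℝ) = n := by
    rw [← Real.rpow_add hnpos]
    norm_num
  have h34 : (0 : ℝ) ≤ (n : ℝ) ^ (3 / 4 : ℝ) := by positivity
  have h18 : (0 : ℝ) ≤ (n : ℝ) ^ (1 / 8 : ℝ) := by positivity
  have h781 : (1 : ℝ) ≤ (n : ℝ) ^ (7 / 8 : ℝ) := Real.one_le_rpow hn0 (by norm_num)
  have he' : (e : ℝ) ≤ C' * (n : ℝ) ^ (3 / 4 : ℝ) :=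
    he.trans (mul_le_mul_of_nonneg_right (le_max_left _ _) h34)
  have hlogpos : 0 ≤ Real.log ((n : ℝ) + 1) := Real.log_nonneg (by linarith)
  have h9 : (e : ℝ) * Real.log ((n : ℝ) + 1) ≤ 16 * C' * (n : ℝ) ^ (7 / 8 : ℝ) := by
    calc (e : ℝ) * Real.log ((n : ℝ) + 1)
        ≤ (C' * (n : ℝ) ^ (3 / 4 : ℝ)) * (16 * (n : ℝ) ^ (1 / 8 : ℝ)) :=
          mul_le_mul he' hlog hlogpos (by positivity)
      _ = 16 * C' * ((n : ℝ) ^ (3 / 4 : ℝ) * (n : ℝ) ^ (1 / 8 : ℝ)) := by ring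
      _ = _ := by rw [h78]
  have h10 : 17 * C' * (n : ℝ) ^ (7 / 8 : ℝ) ≤ η * n := by
    rw [div_le_iff₀ hη] at hn
    calc 17 * C' * (n : ℝ) ^ (7 / 8 : ℝ) ≤ ((n : ℝ) ^ (1 / 8 : ℝ) * η) * (n : ℝ) ^ (7 / 8 : ℝ) :=
          mul_le_mul_of_nonneg_right hn (by positivity)
      _ = η * ((n : ℝ) ^ (7 / 8 : ℝ) * (n : ℝ) ^ (1 / 8 : ℝ)) := by ring
      _ = η * n := by rw [h88]
  have hpos : (0 : ℝ) < 2 * ((n : ℝ) + 1) ^ e := by positivity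
  rw [← Real.log_le_iff_le_exp hpos, Real.log_mul (by norm_num) (by positivity), Real.log_pow]
  have hlog2 : Real.log 2 ≤ 1 := by
    have := Real.log_two_lt_d9
    linarith
  have h11 : (1 : ℝ) ≤ C' * (n : ℝ) ^ (7 / 8 : ℝ) := by nlinarith
  linarith

/-- `⌊√n⌋ ≤ n^{3/4}`. -/
theorem sqrt_le_rpow (n : ℕ) (hn : 1 ≤ n) : (Nat.sqrt n : ℝ) ≤ (n : ℝ) ^ (3 / 4 : ℝ) := by
  have hn0 : (1 : ℝ) ≤ n := by exact_mod_cast hn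
  have h1 : (Nat.sqrt n : ℝ) ^ 2 ≤ n := by
    have := Nat.sqrt_le' n
    exact_mod_cast this
  have h2 : (Nat.sqrt n : ℝ) ≤ (n : ℝ) ^ (1 / 2 : ℝ) := by
    rw [← Real.sqrt_eq_rpow]
    exact Real.le_sqrt_of_sq_le h1
  exact h2.trans (Real.rpow_le_rpow_of_exponent_le hn0 (by norm_num))

/-- `⌊√⌊√n⌋⌋ ^ 3 ≤ n^{3/4}`. -/
theorem fourth_root_cube_le (n : ℕ) :
    ((Nat.sqrt (Nat.sqrt n)) ^ 3 : ℝ) ≤ (n : ℝ) ^ (3 / 4 : ℝ) := by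
  set K := Nat.sqrt (Nat.sqrt n) with hK
  have h1 : K ^ 4 ≤ n := by
    have h2 : K ^ 2 ≤ Nat.sqrt n := Nat.sqrt_le' _
    have h3 : (Nat.sqrt n) ^ 2 ≤ n := Nat.sqrt_le' _
    calc K ^ 4 = (K ^ 2) ^ 2 := by ring
      _ ≤ (Nat.sqrt n) ^ 2 := Nat.pow_le_pow_left h2 2
      _ ≤ n := h3
  have h2 : ((K : ℝ) ^ (4 : ℝ)) ≤ n := by
    have : ((K : ℝ) ^ 4) ≤ n := by exact_mod_cast h1
    calc ((K : ℝ) ^ (4 : ℝ)) = (K : ℝ) ^ 4 := by norm_cast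
      _ ≤ n := this
  have h3 : ((K : ℝ) ^ (4 : ℝ)) ^ (3 / 4 : ℝ) ≤ (n : ℝ) ^ (3 / 4 : ℝ) :=
    Real.rpow_le_rpow (by positivity) h2 (by norm_num)
  have h4 : ((K : ℝ) ^ (4 : ℝ)) ^ (3 / 4 : ℝ) = (K : ℝ) ^ 3 := by
    rw [← Real.rpow_mul (Nat.cast_nonneg K)]
    norm_num
  rwa [h4] at h3

/-- `n / (⌊√⌊√n⌋⌋ + 1) ≤ (⌊√⌊√n⌋⌋ + 1) ^ 3`. -/
theorem div_fourth_root_le (n : ℕ) :
    n / (Nat.sqrt (Nat.sqrt n) + 1) ≤ (Nat.sqrt (Nat.sqrt n) + 1) ^ 3 := by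
  set K := Nat.sqrt (Nat.sqrt n) with hK
  have h1 : n < (Nat.sqrt n + 1) * (Nat.sqrt n + 1) := Nat.lt_succ_sqrt n
  have h2 : Nat.sqrt n < (K + 1) * (K + 1) := Nat.lt_succ_sqrt _
  have h3 : n ≤ (K + 1) ^ 3 * (K + 1) := by
    have h4 : Nat.sqrt n + 1 ≤ (K + 1) * (K + 1) := h2
    calc n ≤ (Nat.sqrt n + 1) * (Nat.sqrt n + 1) := h1.le
      _ ≤ ((K + 1) * (K + 1)) * ((K + 1) * (K + 1)) := Nat.mul_le_mul h4 h4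
      _ = (K + 1) ^ 3 * (K + 1) := by ring
  exact Nat.div_le_of_le_mul (by linarith)

end Pool.Agent.H11.SAE
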