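import Mathlib

/-!
# Centralizers in symmetric groups
-/

set_option autoImplicit false
set_option linter.unusedSectionVars false

namespace Pool.Agent.H11.SAE

open Finset Equiv

section group

variable {G : Type} [Group G] [Fintype G] [DecidableEq G]

/-- The order of the centralizer. -/
def cent (g : G) : ℕ := (univ.filter fun x : G => x * g = g * x).card

theorem card_intertwine_le (g h : G) : (univ.filter fun x : G => x * g = h * x).card ≤ cent g := by
  classical
  rcases (univ.filter fun x : G => x * g = h * x).eq_empty_or_nonempty with he | ⟨x0, hx0⟩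
  · rw [he]
    exact Nat.zero_le _
  · have hx0' := (mem_filter.1 hx0).2
    refine card_le_card_of_injOn (fun x => x0⁻¹ * x) ?_ ?_
    · intro x hx
      have hx' := (mem_filter.1 (mem_coe.1 hx)).2
      simp only [coe_filter, mem_univ, true_and, Set.mem_ofPred_eq]
      have h1 : x0⁻¹ * h = g * x0⁻¹ := by
        rw [inv_mul_eq_iff_eq_mul, ← mul_assoc, hx0', mul_assoc, mul_inv_cancel, mul_one]
      show x0⁻¹ * x * g = g * (x0⁻¹ * x)
      rw [mul_assoc, hx', ← mul_assoc, h1, mul_assoc]
    · intro x _ y _ h
      exact mul_left_cancel h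

theorem card_intertwine_le' (g h : G) : (univ.filter fun x : G => x * g = h * x).card ≤ cent h := by
  classical
  rcases (univ.filter fun x : G => x * g = h * x).eq_empty_or_nonempty with he | ⟨x0, hx0⟩
  · rw [he]
    exact Nat.zero_le _
  · have hx0' := (mem_filter.1 hx0).2
    refine card_le_card_of_injOn (fun x => x * x0⁻¹) ?_ ?_
    · intro x hx
      have hx' := (mem_filter.1 (mem_coe.1 hx)).2
      simp only [coe_filter, mem_univ, true_and, Set.mem_ofPred_eq]
      have h1 : x0⁻¹ * h = g * x0⁻¹ := by
        rw [inv_mul_eq_iff_eq_mul, ← mul_assoc, hx0', mul_assoc, mul_inv_cancel, mul_one]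
      show x * x0⁻¹ * h = h * (x * x0⁻¹)
      rw [mul_assoc, h1, ← mul_assoc, hx', mul_assoc]
    · intro x _ y _ h
      exact mul_right_cancel h

theorem sum_cent : ∑ g : G, cent g = Nat.card (ConjClasses G) * Fintype.card G := by
  classical
  rw [← Nat.card_eq_fintype_card (α := G), ← card_comm_eq_card_conjClasses_mul_card,
    Nat.card_eq_fintype_card, Fintype.card_subtype]
  unfold cent
  rw [← card_sigma]
  refine card_bij' (fun q _ => (q.2, q.1)) (fun q _ => ⟨q.2, q.1⟩) ?_ ?_ ?_ ?_
  · rintro ⟨g, x⟩ h
    simp only [mem_sigma, mem_univ, mem_filter, true_and] at h ⊢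
    exact h
  · rintro ⟨x, g⟩ h
    simp only [mem_sigma, mem_univ, mem_filter, true_and] at h ⊢
    exact h
  · rintro ⟨g, x⟩ _
    rfl
  · rintro ⟨x, g⟩ _
    rfl

/-- The class of `h` is large when the centralizer is small. -/
theorem card_le_cent_mul (h : G) (S : Finset G) (hS : ∀ g : G, g * h * g⁻¹ ∈ S) :
    Fintype.card G ≤ cent h * S.card := by
  classical
  have h1 : (univ : Finset G).card ≤ cent h * ((univ : Finset G).image fun g => g * h * g⁻¹).card := by
    apply card_le_mul_card_image
    intro a ha
    obtain ⟨g0, -, rfl⟩ := mem_image.1 ha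
    refine le_trans (card_le_card ?_) (card_intertwine_le' h (g0 * h * g0⁻¹) |>.trans ?_)
    · intro g hg
      rw [mem_filter] at hg ⊢
      refine ⟨mem_univ _, ?_⟩
      rw [← hg.2]
      group
    · -- conjugate elements have centralizers of the same size
      unfold cent
      refine card_le_card_of_injOn (fun x => g0⁻¹ * x * g0) ?_ ?_
      · intro x hx
        have hx' := (mem_filter.1 (mem_coe.1 hx)).2
        simp only [coe_filter, mem_univ, true_and, Set.mem_ofPred_eq]
        show g0⁻¹ * x * g0 * h = h * (g0⁻¹ * x * g0)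
        calc g0⁻¹ * x * g0 * h = g0⁻¹ * (x * (g0 * h * g0⁻¹)) * g0 := by group
          _ = g0⁻¹ * ((g0 * h * g0⁻¹) * x) * g0 := by rw [hx']
          _ = h * (g0⁻¹ * x * g0) := by group
      · intro x _ y _ hxy
        have : g0⁻¹ * x * g0 = g0⁻¹ * y * g0 := hxy
        simpa using this
  rw [card_univ] at h1
  exact h1.trans (Nat.mul_le_mul_left _ (card_le_card (fun x hx => by
    obtain ⟨g, -, rfl⟩ := mem_image.1 hx
    exact hS g)))

/-- Fibres of a conjugation equivariant map. -/
theorem card_fiber_mul_le {s : ℕ} (v : (Fin s → G) → G)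
    (hv : ∀ (g : G) (y : Fin s → G), v (fun i => g * y i * g⁻¹) = g * v y * g⁻¹) (h : G) :
    (univ.filter fun y : Fin s → G => v y = h).card * Fintype.card G ≤
      cent h * Fintype.card (Fin s → G) := by
  classical
  set F := univ.filter fun y : Fin s → G => v y = h with hF
  have h1 : (F ×ˢ (univ : Finset G)).card ≤
      cent h * ((F ×ˢ (univ : Finset G)).image fun q => fun i => q.2 * q.1 i * q.2⁻¹).card := by
    apply card_le_mul_card_image
    intro a ha
    obtain ⟨⟨y0, g0⟩, hq, rfl⟩ := mem_image.1 ha
    have hy0 : v y0 = h := (mem_filter.1 (mem_product.1 hq).1).2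
    unfold cent
    refine card_le_card_of_injOn (fun q => g0⁻¹ * q.2) ?_ ?_
    · rintro ⟨y, g⟩ hx
      obtain ⟨hx1, hx2⟩ := mem_filter.1 (mem_coe.1 hx)
      have hy : v y = h := (mem_filter.1 (mem_product.1 hx1).1).2
      simp only [coe_filter, mem_univ, true_and, Set.mem_ofPred_eq]
      have h2 := congrArg v hx2
      simp only at h2
      rw [hv, hv, hy, hy0] at h2
      show g0⁻¹ * g * h = h * (g0⁻¹ * g)
      calc g0⁻¹ * g * h = g0⁻¹ * (g * h * g⁻¹) * g := by group
        _ = g0⁻¹ * (g0 * h * g0⁻¹) * g := by rw [h2]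
        _ = h * (g0⁻¹ * g) := by group
    · rintro ⟨y, g⟩ hx ⟨y', g'⟩ hx' hgg
      obtain ⟨-, hx2⟩ := mem_filter.1 (mem_coe.1 hx)
      obtain ⟨-, hx2'⟩ := mem_filter.1 (mem_coe.1 hx')
      have hg : g = g' := mul_left_cancel hgg
      subst hg
      have h3 : y = y' := by
        funext i
        have := congrFun (hx2.trans hx2'.symm) i
        simpa using this
      rw [h3]
  rw [card_product, card_univ] at h1
  exact h1.trans (Nat.mul_le_mul_left _ (card_le_univ _))

end group

section perm

variable {β : Type} [Fintype β] [DecidableEq β]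

theorem cent_le_pow_reps {κ : Type} [Fintype κ] (h : Perm β) (R : κ → β)
    (hR : ∀ a : β, ∃ (i : κ) (k : ℤ), (h ^ k) (R i) = a) :
    cent h ≤ Fintype.card β ^ Fintype.card κ := by
  classical
  rw [← Fintype.card_fun, ← card_univ]
  unfold cent
  refine card_le_card_of_injOn (fun g => fun i => g (R i)) (fun _ _ => mem_coe.2 (mem_univ _)) ?_
  intro g hg g' hg' hgg
  have h1 := (mem_filter.1 (mem_coe.1 hg)).2
  have h2 := (mem_filter.1 (mem_coe.1 hg')).2
  ext a
  obtain ⟨i, k, rfl⟩ := hR a
  have h3 : g (R i) = g' (R i) := congrFun hgg i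
  have h4 : Commute g (h ^ k) := Commute.zpow_right (show Commute g h from h1) k
  have h5 : Commute g' (h ^ k) := Commute.zpow_right (show Commute g' h from h2) k
  rw [← Perm.mul_apply, ← Perm.mul_apply, h4.eq, h5.eq, Perm.mul_apply, Perm.mul_apply, h3]

/-- The points on cycles of length at most `L`. -/
def shortPts (h : Perm β) (L : ℕ) : Finset β :=
  (Finset.Icc 1 L).biUnion fun j => univ.filter fun p => (h ^ j) p = p

/-- The centralizer of a permutation with few points on short cycles is small. -/
theorem cent_le (h : Perm β) (L : ℕ) :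
    cent h ≤ Fintype.card β ^ ((shortPts h L).card + Fintype.card β / (L + 1)) := by
  classical
  by_cases hβ : Nonempty β
  swap
  · rw [not_nonempty_iff] at hβ
    have : Subsingleton (Perm β) := ⟨fun a b => Equiv.ext fun x => (hβ.false x).elim⟩
    have h1 : cent h ≤ 1 := by
      unfold cent
      exact (card_le_univ _).trans (Fintype.card_le_one_iff_subsingleton.2 this)
    have h2 : shortPts h L = ∅ := Finset.eq_empty_of_isEmpty _
    rw [h2, Fintype.card_eq_zero]
    simpa using h1
  let Q := Quotient (Perm.SameCycle.setoid h)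
  have hrep : ∀ a : β, ∃ (i : Q) (k : ℤ), (h ^ k) (Quotient.out i) = a := by
    intro a
    refine ⟨Quotient.mk _ a, ?_⟩
    have : (Perm.SameCycle.setoid h).r (Quotient.out (Quotient.mk (Perm.SameCycle.setoid h) a)) a :=
      Quotient.mk_out a
    exact this
  refine (cent_le_pow_reps h (fun i : Q => Quotient.out i) hrep).trans ?_
  apply Nat.pow_le_pow_right Fintype.card_pos
  -- count the classes
  let Q1 : Finset Q := (shortPts h L).image (Quotient.mk (Perm.SameCycle.setoid h))
  let Q2 : Finset Q := univ \ Q1
  have hQ : Fintype.card Q = Q1.card + Q2.card := by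
    have := card_sdiff_add_card_eq_card (subset_univ Q1)
    rw [card_univ] at this
    show Fintype.card Q = Q1.card + (univ \ Q1).card
    omega
  rw [hQ]
  refine add_le_add card_image_le ?_
  rw [Nat.le_div_iff_mul_le (Nat.succ_pos L)]
  have h1 : Q2.card * (L + 1) ≤ ∑ q ∈ Q2, (univ.filter fun a : β =>
      Quotient.mk (Perm.SameCycle.setoid h) a = q).card := by
    rw [← smul_eq_mul, ← sum_const]
    refine sum_le_sum fun q hq => ?_
    have hq1 : q ∉ Q1 := (mem_sdiff.1 hq).2
    set p := Quotient.out q with hp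
    have hpq : Quotient.mk (Perm.SameCycle.setoid h) p = q := Quotient.out_eq q
    have hns : p ∉ shortPts h L := fun hs => hq1 (mem_image.2 ⟨p, hs, hpq⟩)
    have hinj : Set.InjOn (fun i : ℕ => (h ^ i) p) (Finset.range (L + 1) : Set ℕ) := by
      have key : ∀ i j : ℕ, i < j → j ≤ L → (h ^ i) p ≠ (h ^ j) p := by
        intro i j hij hj he
        apply hns
        rw [shortPts, mem_biUnion]
        refine ⟨j - i, Finset.mem_Icc.2 ⟨by omega, by omega⟩, mem_filter.2 ⟨mem_univ _, ?_⟩⟩
        have h2 : h ^ j = h ^ i * h ^ (j - i) := by rw [← pow_add]; congr 1; omega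
        rw [h2, Perm.mul_apply] at he
        exact ((h ^ i).injective he).symm
      intro i hi j hj he
      have hi' : i ≤ L := by simpa using hi
      have hj' : j ≤ L := by simpa using hj
      rcases lt_trichotomy i j with hlt | heq | hgt
      · exact absurd he (key i j hlt hj')
      · exact heq
      · exact absurd he.symm (key j i hgt hi')
    have h3 : ((Finset.range (L + 1)).image fun i : ℕ => (h ^ i) p).card = L + 1 := by
      rw [card_image_of_injOn hinj, card_range]
    rw [← h3]
    apply card_le_card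
    intro a ha
    obtain ⟨i, -, rfl⟩ := mem_image.1 ha
    rw [mem_filter]
    refine ⟨mem_univ _, ?_⟩
    rw [← hpq]
    apply Quotient.sound
    refine ⟨-(i : ℤ), ?_⟩
    rw [zpow_neg, zpow_natCast]
    exact (h ^ i).symm_apply_apply p
  refine h1.trans ?_
  have h2 : ∑ q ∈ Q2, (univ.filter fun a : β =>
      Quotient.mk (Perm.SameCycle.setoid h) a = q).card ≤
      ∑ q : Q, (univ.filter fun a : β => Quotient.mk (Perm.SameCycle.setoid h) a = q).card :=
    sum_le_sum_of_subset (subset_univ _)
  refine h2.trans (le_of_eq ?_)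
  rw [← card_univ, card_eq_sum_card_fiberwise
    (f := fun a : β => Quotient.mk (Perm.SameCycle.setoid h) a) (t := univ)
    (fun _ _ => mem_coe.2 (mem_univ _))]

end perm

end Pool.Agent.H11.SAE
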