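import Mathlib

/-!
# The number of conjugacy classes of the symmetric group is subexponential
-/

set_option autoImplicit false

namespace Pool.Agent.H11.SAE

open Finset Equiv

theorem exists_enum (m : Multiset ℕ) (k n : ℕ) (hk : m.card ≤ k) (hn : ∀ a ∈ m, a ≤ n) :
    ∃ B : Fin k → Fin (n + 1), ∀ a, a ≠ 0 →
      ((univ : Finset (Fin k)).val.map fun i => (B i : ℕ)).count a = m.count a := by
  classical
  set m' : Multiset ℕ := m + Multiset.replicate (k - m.card) 0 with hm'
  have hcard : m'.toList.length = k := by
    rw [Multiset.length_toList, hm', Multiset.card_add, Multiset.card_replicate]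
    omega
  have hle : ∀ a ∈ m', a ≤ n := by
    intro a ha
    rw [hm', Multiset.mem_add] at ha
    rcases ha with ha | ha
    · exact hn a ha
    · rw [Multiset.eq_of_mem_replicate ha]
      exact Nat.zero_le _
  let f : Fin k → ℕ := fun i => m'.toList.get (i.cast hcard.symm)
  have hf : ∀ i, f i ≤ n := fun i => hle _ (Multiset.mem_toList.1 (List.get_mem _ _))
  refine ⟨fun i => ⟨f i, Nat.lt_succ_of_le (hf i)⟩, fun a ha => ?_⟩
  have h1 : ((univ : Finset (Fin k)).val.map fun i => f i) = m' := by
    rw [Fin.univ_val_map]
    have h2 : List.ofFn f = m'.toList := by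
      apply List.ext_get
      · rw [List.length_ofFn, hcard]
      · intro i h1 h2
        simp [f]
    rw [h2, Multiset.coe_toList]
  show ((univ : Finset (Fin k)).val.map fun i => f i).count a = m.count a
  rw [h1, hm', Multiset.count_add, Multiset.count_replicate, if_neg (Ne.symm ha), add_zero]

theorem card_mul_le_sum (m : Multiset ℕ) (s : ℕ) (h : ∀ a ∈ m, s < a) :
    m.card * (s + 1) ≤ m.sum := by
  have := Multiset.card_nsmul_le_sum (s := m) (a := s + 1) (fun x hx => h x hx)
  simpa [smul_eq_mul] using this

/-- The number of conjugacy classes of `S_n`. -/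
theorem card_conjClasses_le (n : ℕ) :
    Nat.card (ConjClasses (Perm (Fin n))) ≤ (n + 1) ^ (2 * Nat.sqrt n + 1) := by
  classical
  set s := Nat.sqrt n with hs
  have hsn : n < (s + 1) * (s + 1) := Nat.lt_succ_sqrt n
  -- facts on cycle types
  have hsum : ∀ σ : Perm (Fin n), σ.cycleType.sum ≤ n := by
    intro σ
    rw [Perm.sum_cycleType]
    simpa using card_le_univ σ.support
  have hmem : ∀ (σ : Perm (Fin n)), ∀ a ∈ σ.cycleType, a ≤ n := fun σ a ha =>
    (Multiset.le_sum_of_mem ha).trans (hsum σ)
  have hcount : ∀ (σ : Perm (Fin n)) (a : ℕ), σ.cycleType.count a ≤ n := by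
    intro σ a
    refine (Multiset.count_le_card _ _).trans ?_
    have h1 := card_mul_le_sum σ.cycleType 0 (fun a ha => by
      have := Perm.two_le_of_mem_cycleType ha
      omega)
    have h2 := hsum σ
    omega
  have hbig : ∀ σ : Perm (Fin n), (σ.cycleType.filter fun a => s < a).card ≤ s := by
    intro σ
    have h1 := card_mul_le_sum (σ.cycleType.filter fun a => s < a) s (fun a ha =>
      (Multiset.mem_filter.1 ha).2)
    have h2 : (σ.cycleType.filter fun a => s < a).sum ≤ n := by
      have h3 := Multiset.filter_add_not (fun a => s < a) σ.cycleType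
      have h4 := congrArg Multiset.sum h3
      rw [Multiset.sum_add] at h4
      have h5 := hsum σ
      omega
    by_contra hcon
    rw [not_le] at hcon
    have h3 : (s + 1) * (s + 1) ≤ (σ.cycleType.filter fun a => s < a).card * (s + 1) :=
      Nat.mul_le_mul_right _ hcon
    omega
  choose B hB using fun σ : Perm (Fin n) => exists_enum (σ.cycleType.filter fun a => s < a) s n
    (hbig σ) (fun a ha => hmem σ a (Multiset.mem_of_mem_filter ha))
  let Φ : ConjClasses (Perm (Fin n)) → (Fin (s + 1) → Fin (n + 1)) × (Fin s → Fin (n + 1)) :=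
    fun c => (fun j => ⟨(Quotient.out c).cycleType.count (j : ℕ),
      Nat.lt_succ_of_le (hcount _ _)⟩, B (Quotient.out c))
  have hΦ : Function.Injective Φ := by
    intro c c' hcc
    have h1 := congrArg Prod.fst hcc
    have h2 : B (Quotient.out c) = B (Quotient.out c') := congrArg Prod.snd hcc
    have h3 : (Quotient.out c).cycleType = (Quotient.out c').cycleType := by
      ext a
      by_cases ha : a ≤ s
      · have h4 := congrFun h1 ⟨a, Nat.lt_succ_of_le ha⟩
        exact congrArg Fin.val h4
      · rw [not_le] at ha
        have ha0 : a ≠ 0 := by omega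
        have h4 := hB (Quotient.out c) a ha0
        have h5 := hB (Quotient.out c') a ha0
        rw [Multiset.count_filter_of_pos ha] at h4 h5
        rw [← h4, ← h5, h2]
    have h4 : IsConj (Quotient.out c) (Quotient.out c') := Perm.isConj_iff_cycleType_eq.2 h3
    have h5 : ConjClasses.mk (Quotient.out c) = ConjClasses.mk (Quotient.out c') :=
      ConjClasses.mk_eq_mk_iff_isConj.2 h4
    have h6 : ∀ c : ConjClasses (Perm (Fin n)), ConjClasses.mk (Quotient.out c) = c := fun c =>
      Quotient.out_eq c
    rwa [h6, h6] at h5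
  have := Nat.card_le_card_of_injective Φ hΦ
  refine this.trans (le_of_eq ?_)
  rw [Nat.card_prod, Nat.card_fun, Nat.card_fun, Nat.card_fin, Nat.card_fin, Nat.card_fin,
    ← pow_add]
  congr 1
  omega

end Pool.Agent.H11.SAE
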