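import Mathlib

/-!
# Concentration of measure on finite spaces and on symmetric groups
-/

set_option autoImplicit false

namespace Pool.Agent.H11.SAE

open Finset

/-- Laplace transform bound with constant `c` for the functions which are `1`-Lipschitz for `D`. -/
def Lap {X : Type*} [Fintype X] (D : X → X → ℝ) (c : ℝ) : Prop :=
  ∀ f : X → ℝ, (∀ x y, |f x - f y| ≤ D x y) → ∀ t : ℝ, |t| ≤ 1 / 3 →
    ∑ x, Real.exp (t * f x) ≤
      Fintype.card X * Real.exp (t * ((∑ x, f x) / Fintype.card X) + c * t ^ 2)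

theorem Lap.mono {X : Type*} [Fintype X] {D D' : X → X → ℝ} {c : ℝ} (h : Lap D c)
    (hD : ∀ x y, D' x y ≤ D x y) : Lap D' c :=
  fun f hf => h f fun x y => (hf x y).trans (hD x y)

theorem Lap.mono_const {X : Type*} [Fintype X] {D : X → X → ℝ} {c c' : ℝ} (h : Lap D c)
    (hc : c ≤ c') : Lap D c' := by
  intro f hf t ht
  refine (h f hf t ht).trans ?_
  gcongr

/-- Transport along an equivalence. -/
theorem Lap.congr {X Y : Type*} [Fintype X] [Fintype Y] (e : X ≃ Y) {D : Y → Y → ℝ} {c : ℝ}
    (h : Lap D c) : Lap (fun x y => D (e x) (e y)) c := by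
  intro f hf t ht
  have h1 := h (fun y => f (e.symm y)) (by
    intro x y
    simpa using hf (e.symm x) (e.symm y)) t ht
  rw [Fintype.card_congr e]
  have e1 : ∑ y, Real.exp (t * f (e.symm y)) = ∑ x, Real.exp (t * f x) :=
    Equiv.sum_comp e.symm (fun x => Real.exp (t * f x))
  have e2 : ∑ y, f (e.symm y) = ∑ x, f x := Equiv.sum_comp e.symm f
  rw [e1, e2] at h1
  exact h1

/-- Spaces of diameter at most `3`. -/
theorem lap_of_diam {X : Type*} [Fintype X] [Nonempty X] : Lap (fun _ _ : X => (3 : ℝ)) 9 := by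
  intro f hf t ht
  set m : ℝ := (∑ x, f x) / Fintype.card X with hm
  have hcard : (0 : ℝ) < Fintype.card X := by exact_mod_cast Fintype.card_pos
  have hsum : ∑ x, (f x - m) = 0 := by
    rw [Finset.sum_sub_distrib, Finset.sum_const, Finset.card_univ, nsmul_eq_mul, hm]
    field_simp
    ring
  have hdev : ∀ x, |f x - m| ≤ 3 := by
    intro x
    have : f x - m = (∑ y, (f x - f y)) / Fintype.card X := by
      rw [Finset.sum_sub_distrib, Finset.sum_const, Finset.card_univ, nsmul_eq_mul, hm]
      field_simp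
    rw [this, abs_div, abs_of_pos hcard, div_le_iff₀ hcard]
    calc |∑ y, (f x - f y)| ≤ ∑ y, |f x - f y| := Finset.abs_sum_le_sum_abs _ _
      _ ≤ ∑ _y : X, (3 : ℝ) := Finset.sum_le_sum fun y _ => hf x y
      _ = 3 * Fintype.card X := by rw [Finset.sum_const, Finset.card_univ, nsmul_eq_mul, mul_comm]
  have hexp : ∀ x, Real.exp (t * (f x - m)) ≤ 1 + t * (f x - m) + 9 * t ^ 2 := by
    intro x
    have h1 : |t * (f x - m)| ≤ 1 := by
      rw [abs_mul]
      calc |t| * |f x - m| ≤ 1 / 3 * 3 := mul_le_mul ht (hdev x) (abs_nonneg _) (by norm_num)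
        _ = 1 := by norm_num
    have h2 := Real.abs_exp_sub_one_sub_id_le h1
    have h3 := (abs_le.1 h2).2
    have h4 : (t * (f x - m)) ^ 2 ≤ 9 * t ^ 2 := by
      rw [mul_pow, mul_comm]
      apply mul_le_mul_of_nonneg_right _ (sq_nonneg t)
      have := abs_le.1 (hdev x)
      nlinarith [this.1, this.2]
    linarith
  have hfac : ∀ x, Real.exp (t * f x) = Real.exp (t * m) * Real.exp (t * (f x - m)) := by
    intro x
    rw [← Real.exp_add]
    congr 1
    ring
  calc ∑ x, Real.exp (t * f x) = Real.exp (t * m) * ∑ x, Real.exp (t * (f x - m)) := by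
        rw [Finset.mul_sum]
        exact Finset.sum_congr rfl fun x _ => hfac x
    _ ≤ Real.exp (t * m) * ∑ x, (1 + t * (f x - m) + 9 * t ^ 2) := by
        gcongr with x
        exact hexp x
    _ = Real.exp (t * m) * (Fintype.card X * (1 + 9 * t ^ 2)) := by
        congr 1
        rw [Finset.sum_add_distrib, Finset.sum_add_distrib, ← Finset.mul_sum, hsum]
        simp only [Finset.sum_const, Finset.card_univ, nsmul_eq_mul]
        ring
    _ ≤ Real.exp (t * m) * (Fintype.card X * Real.exp (9 * t ^ 2)) := by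
        gcongr
        have := Real.add_one_le_exp (9 * t ^ 2)
        linarith
    _ = Fintype.card X * Real.exp (t * m + 9 * t ^ 2) := by
        rw [Real.exp_add]
        ring

/-- Products. -/
theorem Lap.prod {X Y : Type*} [Fintype X] [Fintype Y] [Nonempty Y] {D : X → X → ℝ}
    {D' : Y → Y → ℝ} {c c' : ℝ} (hX : Lap D c) (hY : Lap D' c') (hD0 : ∀ x, D x x ≤ 0)
    (hD0' : ∀ y, D' y y ≤ 0) :
    Lap (fun p q : X × Y => D p.1 q.1 + D' p.2 q.2) (c + c') := by
  intro f hf t ht
  have hcard : (0 : ℝ) < Fintype.card Y := by exact_mod_cast Fintype.card_pos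
  set g : X → ℝ := fun x => (∑ y, f (x, y)) / Fintype.card Y with hg
  have h1 : ∀ x, ∑ y, Real.exp (t * f (x, y)) ≤
      Fintype.card Y * Real.exp (t * g x + c' * t ^ 2) := by
    intro x
    refine hY (fun y => f (x, y)) ?_ t ht
    intro y y'
    have := hf (x, y) (x, y')
    simp only at this
    linarith [hD0 x]
  have h2 : ∀ x x', |g x - g x'| ≤ D x x' := by
    intro x x'
    have : g x - g x' = (∑ y, (f (x, y) - f (x', y))) / Fintype.card Y := by
      rw [hg]
      simp only
      rw [Finset.sum_sub_distrib, sub_div]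
    rw [this, abs_div, abs_of_pos hcard, div_le_iff₀ hcard]
    calc |∑ y, (f (x, y) - f (x', y))| ≤ ∑ y, |f (x, y) - f (x', y)| :=
          Finset.abs_sum_le_sum_abs _ _
      _ ≤ ∑ _y : Y, D x x' := by
          refine Finset.sum_le_sum fun y _ => ?_
          have := hf (x, y) (x', y)
          simp only at this
          linarith [hD0' y]
      _ = D x x' * Fintype.card Y := by
          rw [Finset.sum_const, Finset.card_univ, nsmul_eq_mul, mul_comm]
  have h3 := hX g h2 t ht
  have h4 : (∑ x, g x) / Fintype.card X = (∑ p : X × Y, f p) / Fintype.card (X × Y) := by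
    rw [Fintype.sum_prod_type, Fintype.card_prod, Nat.cast_mul, hg]
    simp only
    rw [← Finset.sum_div, div_div, mul_comm]
  rw [h4] at h3
  calc ∑ p : X × Y, Real.exp (t * f p) = ∑ x, ∑ y, Real.exp (t * f (x, y)) :=
        Fintype.sum_prod_type _
    _ ≤ ∑ x, (Fintype.card Y * Real.exp (t * g x + c' * t ^ 2)) :=
        Finset.sum_le_sum fun x _ => h1 x
    _ = Fintype.card Y * Real.exp (c' * t ^ 2) * ∑ x, Real.exp (t * g x) := by
        rw [Finset.mul_sum]
        refine Finset.sum_congr rfl fun x _ => ?_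
        rw [Real.exp_add]
        ring
    _ ≤ Fintype.card Y * Real.exp (c' * t ^ 2) * (Fintype.card X *
          Real.exp (t * ((∑ p : X × Y, f p) / Fintype.card (X × Y)) + c * t ^ 2)) := by
        gcongr
    _ = Fintype.card (X × Y) *
          Real.exp (t * ((∑ p : X × Y, f p) / Fintype.card (X × Y)) + (c + c') * t ^ 2) := by
        rw [Fintype.card_prod, Nat.cast_mul, add_mul, Real.exp_add, Real.exp_add, Real.exp_add]
        ring

/-- The blow-up lemma. -/
theorem Lap.blowup {X : Type*} [Fintype X] {D : X → X → ℝ} {c : ℝ} (h : Lap D c)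
    (hsymm : ∀ x y, D x y = D y x) (htri : ∀ x y z, D x z ≤ D x y + D y z)
    (hnn : ∀ x y, 0 ≤ D x y) (hself : ∀ x, D x x = 0)
    (A : Finset X) {a : ℝ} (hA : Real.exp (-a) * Fintype.card X ≤ A.card) (hAne : A.Nonempty)
    {t l : ℝ} (hl : 0 < l) (hl3 : l ≤ 1 / 3) [DecidablePred fun x => ∀ y ∈ A, t ≤ D x y] :
    (((univ : Finset X).filter fun x => ∀ y ∈ A, t ≤ D x y).card : ℝ) ≤
      Fintype.card X * Real.exp (a + 2 * c * l ^ 2 - l * t) := by
  have hXpos : (0 : ℝ) < Fintype.card X := by
    obtain ⟨x, -⟩ := hAne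
    exact_mod_cast Fintype.card_pos_iff.2 ⟨x⟩
  -- the distance to `A`
  let f : X → ℝ := fun x => A.inf' hAne fun y => D x y
  have hf0 : ∀ x, 0 ≤ f x := fun x => (Finset.le_inf'_iff _ _).2 fun y _ => hnn x y
  have hfA : ∀ x ∈ A, f x = 0 := by
    intro x hx
    refine le_antisymm ?_ (hf0 x)
    have := Finset.inf'_le (fun y => D x y) hx
    rwa [hself] at this
  have hfl : ∀ x y, f x - f y ≤ D x y := by
    intro x y
    obtain ⟨z, hz, hz'⟩ := Finset.exists_mem_eq_inf' hAne (fun z => D y z)
    have h1 : f x ≤ D x z := Finset.inf'_le (fun y => D x y) hz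
    have h2 : f y = D y z := hz'
    linarith [htri x y z]
  have hlip : ∀ x y, |f x - f y| ≤ D x y := by
    intro x y
    rw [abs_le]
    refine ⟨?_, hfl x y⟩
    have := hfl y x
    rw [hsymm y x] at this
    linarith
  set m : ℝ := (∑ x, f x) / Fintype.card X with hm
  have h1 := h f hlip (-l) (by rw [abs_neg, abs_of_pos hl]; exact hl3)
  have h2 := h f hlip l (by rw [abs_of_pos hl]; exact hl3)
  have h3 : Real.exp (-a) ≤ Real.exp (-l * m + c * l ^ 2) := by
    have : (A.card : ℝ) ≤ ∑ x, Real.exp (-l * f x) := by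
      calc (A.card : ℝ) = ∑ _x ∈ A, (1 : ℝ) := by rw [Finset.sum_const, nsmul_eq_mul, mul_one]
        _ = ∑ x ∈ A, Real.exp (-l * f x) := by
            refine Finset.sum_congr rfl fun x hx => ?_
            rw [hfA x hx, mul_zero, Real.exp_zero]
        _ ≤ ∑ x, Real.exp (-l * f x) :=
            Finset.sum_le_sum_of_subset_of_nonneg (Finset.subset_univ A)
              fun x _ _ => (Real.exp_pos _).le
    have h4 := (hA.trans this).trans h1
    rw [mul_comm, neg_sq] at h4
    exact le_of_mul_le_mul_left h4 hXpos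
  have h4 : l * m ≤ a + c * l ^ 2 := by
    have := Real.exp_le_exp.1 h3
    linarith
  have h5 : (((univ : Finset X).filter fun x => ∀ y ∈ A, t ≤ D x y).card : ℝ) * Real.exp (l * t) ≤
      ∑ x, Real.exp (l * f x) := by
    calc (((univ : Finset X).filter fun x => ∀ y ∈ A, t ≤ D x y).card : ℝ) * Real.exp (l * t)
        = ∑ _x ∈ (univ : Finset X).filter fun x => ∀ y ∈ A, t ≤ D x y, Real.exp (l * t) := by
          rw [Finset.sum_const, nsmul_eq_mul]
      _ ≤ ∑ x ∈ (univ : Finset X).filter fun x => ∀ y ∈ A, t ≤ D x y, Real.exp (l * f x) := by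
          refine Finset.sum_le_sum fun x hx => ?_
          have hx' := (Finset.mem_filter.1 hx).2
          have : t ≤ f x := (Finset.le_inf'_iff _ _).2 hx'
          gcongr
      _ ≤ ∑ x, Real.exp (l * f x) :=
          Finset.sum_le_sum_of_subset_of_nonneg (Finset.filter_subset _ _)
            fun x _ _ => (Real.exp_pos _).le
  have h6 := h5.trans h2
  have h7 : Real.exp (a + 2 * c * l ^ 2 - l * t) =
      Real.exp (a + 2 * c * l ^ 2) / Real.exp (l * t) := Real.exp_sub _ _
  rw [h7, ← mul_div_assoc, le_div_iff₀ (Real.exp_pos _)]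
  refine h6.trans (mul_le_mul_of_nonneg_left (Real.exp_le_exp.2 ?_) hXpos.le)
  rw [← hm]
  linarith

end Pool.Agent.H11.SAE
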