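import Mathlib

/-!
# Simultaneously asymptotically equidistributed tuples of words: definitions
-/

set_option autoImplicit false

namespace Pool.Agent.H11.SAE

open Finset Equiv

/-- The normalised Hamming metric `d(σ, τ) = |{i : σ i ≠ τ i}| / n` on the symmetric group. -/
noncomputable def permDist {n : ℕ} (σ τ : Perm (Fin n)) : ℝ :=
  ((univ.filter fun i => σ i ≠ τ i).card : ℝ) / n

/-- The `ℓ¹`-product metric on `d`-tuples of permutations. -/
noncomputable def tupleDist {n d : ℕ} (s t : Fin d → Perm (Fin n)) : ℝ :=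
  ∑ i, permDist (s i) (t i)

/-- `γ` is a coupling of the probability measures `μ` and `ν` on a finite set, all given by their
point masses. -/
structure IsCoupling {X : Type} [Fintype X] (μ ν : X → ℝ) (γ : X → X → ℝ) : Prop where
  nonneg : ∀ s t, 0 ≤ γ s t
  left : ∀ s, ∑ t, γ s t = μ s
  right : ∀ t, ∑ s, γ s t = ν t

/-- The Kantorovich-Rubinstein distance of two probability measures on `d`-tuples of
permutations. -/
noncomputable def kantorovich {n d : ℕ} (μ ν : (Fin d → Perm (Fin n)) → ℝ) : ℝ :=
  sInf {c : ℝ | ∃ γ : (Fin d → Perm (Fin n)) → (Fin d → Perm (Fin n)) → ℝ,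
    IsCoupling μ ν γ ∧ ∑ s, ∑ t, γ s t * tupleDist s t = c}

/-- The word map `S_n ^ r → S_n ^ d` of a `d`-tuple of words in `r` letters. -/
def wordMap {r d : ℕ} (w : Fin d → FreeGroup (Fin r)) (n : ℕ) (σ : Fin r → Perm (Fin n)) :
    Fin d → Perm (Fin n) :=
  fun i => FreeGroup.lift σ (w i)

/-- The image of the uniform probability measure on `S_n ^ r` under the word map. -/
noncomputable def wordLaw {r d : ℕ} (w : Fin d → FreeGroup (Fin r)) (n : ℕ) :
    (Fin d → Perm (Fin n)) → ℝ :=
  fun t => ((univ.filter fun σ : Fin r → Perm (Fin n) => wordMap w n σ = t).card : ℝ) /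
    Fintype.card (Fin r → Perm (Fin n))

/-- The uniform probability measure on `S_n ^ d`. -/
noncomputable def uniformLaw (n d : ℕ) : (Fin d → Perm (Fin n)) → ℝ :=
  fun _ => 1 / Fintype.card (Fin d → Perm (Fin n))

/-- The tuple of words `w` is simultaneously asymptotically equidistributed. -/
def IsSAE {r d : ℕ} (w : Fin d → FreeGroup (Fin r)) : Prop :=
  Filter.Tendsto (fun n : ℕ => kantorovich (wordLaw w n) (uniformLaw n d)) Filter.atTop (nhds 0)

end Pool.Agent.H11.SAE
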