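import Mathlib

/-!
# The deficiency version of the marriage theorem, and a counting inequality
-/

set_option autoImplicit false

namespace Pool.Agent.H11.SAE

open Finset

/-- If every set of sources has almost as many related targets as elements, then there is a
bijection which respects the relation outside a small set. -/
theorem exists_matching {S Y : Type*} [Fintype S] [Fintype Y] [DecidableEq S] [DecidableEq Y]
    (hcard : Fintype.card S = Fintype.card Y) (R : S → Y → Prop) [∀ s y, Decidable (R s y)]
    (m : ℕ)
    (h : ∀ A : Finset S, A.card ≤ ((univ : Finset Y).filter fun y => ∃ s ∈ A, R s y).card + m) :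
    ∃ e : S ≃ Y, ((univ : Finset S).filter fun s => ¬ R s (e s)).card ≤ m := by
  classical
  let t : S → Finset (Y ⊕ Fin m) := fun s => (univ.filter (R s)).disjSum univ
  obtain ⟨f, hf, hft⟩ := (Finset.all_card_le_biUnion_card_iff_exists_injective t).1 (by
    intro A
    rcases A.eq_empty_or_nonempty with rfl | ⟨s0, hs0⟩
    · simp
    · have hEq : A.biUnion t =
          (((univ : Finset Y).filter fun y => ∃ s ∈ A, R s y)).disjSum (univ : Finset (Fin m)) := by
        ext z
        rcases z with y | i
        · simp [t]
        · simp only [mem_biUnion, t, inr_mem_disjSum, mem_univ, and_true, iff_true]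
          exact ⟨s0, hs0⟩
      rw [hEq, card_disjSum, card_univ, Fintype.card_fin]
      exact h A)
  let S0 : Finset S := univ.filter fun s => (f s).isLeft = true
  have hS0 : (univ.filter fun s => ¬ (f s).isLeft = true).card ≤ m := by
    have : ((univ.filter fun s => ¬ (f s).isLeft = true).image f).card ≤
        ((univ : Finset (Fin m)).map ⟨Sum.inr, Sum.inr_injective⟩ : Finset (Y ⊕ Fin m)).card := by
      apply card_le_card
      intro z hz
      obtain ⟨s, hs, rfl⟩ := mem_image.1 hz
      have hs' := (mem_filter.1 hs).2
      rcases hfs : f s with y | i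
      · rw [hfs] at hs'
        simp at hs'
      · simp
    rwa [card_image_of_injective _ hf, card_map, card_univ, Fintype.card_fin] at this
  by_cases hY : Nonempty Y
  · obtain ⟨y0⟩ := hY
    let g : S → Y := fun s => (f s).elim id (fun _ => y0)
    have hg : ∀ s ∈ S0, f s = Sum.inl (g s) := by
      intro s hs
      have hs' := (mem_filter.1 hs).2
      rcases hfs : f s with y | i
      · simp [g, hfs]
      · rw [hfs] at hs'
        simp at hs'
    have hinj : Set.InjOn g (S0 : Set S) := by
      intro a ha b hb hab
      apply hf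
      rw [hg a ha, hg b hb, hab]
    obtain ⟨e, he⟩ := Finset.exists_equiv_extend_of_card_eq (t := (univ : Finset Y))
      (by rw [card_univ, hcard]) (s := S0) (f := g) (subset_univ _) hinj
    let e' : S ≃ Y := e.trans (Equiv.subtypeUnivEquiv (fun y => mem_univ y))
    have he' : ∀ s ∈ S0, e' s = g s := fun s hs => he s hs
    refine ⟨e', le_trans (card_le_card ?_) hS0⟩
    intro s hs
    rw [mem_filter] at hs ⊢
    refine ⟨mem_univ _, fun hl => hs.2 ?_⟩
    have hs0 : s ∈ S0 := mem_filter.2 ⟨mem_univ _, hl⟩
    rw [he' s hs0]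
    have h1 := hft s
    rw [hg s hs0] at h1
    have h2 := inl_mem_disjSum.1 h1
    exact (mem_filter.1 h2).2
  · rw [not_nonempty_iff] at hY
    have h0 : Fintype.card Y = 0 := Fintype.card_eq_zero
    have hSe : IsEmpty S := Fintype.card_eq_zero_iff.1 (hcard.trans h0)
    refine ⟨Equiv.equivOfIsEmpty S Y, ?_⟩
    simp

/-- Cauchy-Schwarz: a set whose elements have few coincidences under `φ` has a large image. -/
theorem card_sq_le_image_mul {S Y : Type*} [DecidableEq S] [DecidableEq Y] (φ : S → Y)
    (B : Finset S) :
    B.card ^ 2 ≤ (B.image φ).card * ((B ×ˢ B).filter fun p => φ p.1 = φ p.2).card := by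
  have h1 : B.card = ∑ y ∈ B.image φ, (B.filter fun s => φ s = y).card :=
    card_eq_sum_card_image φ B
  have h2 : ((B ×ˢ B).filter fun p => φ p.1 = φ p.2).card =
      ∑ y ∈ B.image φ, (B.filter fun s => φ s = y).card ^ 2 := by
    rw [card_eq_sum_card_fiberwise (f := fun p : S × S => φ p.1) (t := B.image φ)]
    · refine sum_congr rfl fun y hy => ?_
      rw [sq, ← card_product]
      congr 1
      ext ⟨a, b⟩
      simp only [mem_filter, mem_product]
      constructor
      · rintro ⟨⟨⟨ha, hb⟩, hab⟩, hy⟩
        exact ⟨⟨ha, hy⟩, hb, hab ▸ hy⟩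
      · rintro ⟨⟨ha, hy⟩, hb, hy'⟩
        exact ⟨⟨⟨ha, hb⟩, hy.trans hy'.symm⟩, hy⟩
    · intro p hp
      have := (mem_filter.1 hp).1
      exact mem_image_of_mem _ (mem_product.1 this).1
  rw [h2]
  nth_rewrite 1 [h1]
  exact sq_sum_le_card_mul_sum_sq

end Pool.Agent.H11.SAE
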