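import Pool.Agent.H11.SAE.SymConc
import Pool.Agent.H11.SAE.Matching
import Pool.Agent.H11.SAE.Defs

/-!
# A criterion for simultaneous asymptotic equidistribution
-/

set_option autoImplicit false

namespace Pool.Agent.H11.SAE

open Finset Equiv Filter

theorem permDist_eq {n : ℕ} (σ τ : Perm (Fin n)) : permDist σ τ = hd σ τ / n := by
  unfold permDist hd
  congr 1
  rw [Finset.card_filter, Nat.cast_sum]
  refine Finset.sum_congr rfl fun i _ => ?_
  by_cases h : σ i = τ i <;> simp [h]

theorem tupleDist_eq {n d : ℕ} (s t : Fin d → Perm (Fin n)) : tupleDist s t = td s t / n := by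
  unfold tupleDist td
  rw [Finset.sum_div]
  exact Finset.sum_congr rfl fun i _ => permDist_eq _ _

theorem tupleDist_nonneg {n d : ℕ} (s t : Fin d → Perm (Fin n)) : 0 ≤ tupleDist s t := by
  rw [tupleDist_eq]
  exact div_nonneg (td_nonneg _ _) (Nat.cast_nonneg _)

theorem tupleDist_le {n d : ℕ} (s t : Fin d → Perm (Fin n)) : tupleDist s t ≤ d := by
  rw [tupleDist_eq]
  rcases n.eq_zero_or_pos with rfl | hn
  · simp
  · rw [div_le_iff₀ (by exact_mod_cast hn)]
    exact td_le s t

/-- A bijection from the domain of the word map to the product of the target with a further factor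
gives a coupling. -/
theorem kantorovich_le_of_equiv {r d n : ℕ} (w : Fin d → FreeGroup (Fin r)) {Z : Type}
    [Fintype Z] [Nonempty Z]
    (e : (Fin r → Perm (Fin n)) ≃ (Fin d → Perm (Fin n)) × Z) :
    kantorovich (wordLaw w n) (uniformLaw n d) ≤
      (∑ σ, tupleDist (wordMap w n σ) (e σ).1) / Fintype.card (Fin r → Perm (Fin n)) := by
  classical
  have hpos : (0 : ℝ) < Fintype.card (Fin r → Perm (Fin n)) := by exact_mod_cast Fintype.card_pos
  have hZ : (0 : ℝ) < Fintype.card Z := by exact_mod_cast Fintype.card_pos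
  set M : ℝ := ((Fintype.card (Fin r → Perm (Fin n)) : ℕ) : ℝ) with hM
  let γ : (Fin d → Perm (Fin n)) → (Fin d → Perm (Fin n)) → ℝ := fun s t =>
    ((univ.filter fun σ : Fin r → Perm (Fin n) => wordMap w n σ = s ∧ (e σ).1 = t).card : ℝ) / M
  refine csInf_le ?_ ?_
  · refine ⟨0, ?_⟩
    rintro c ⟨γ', hγ', rfl⟩
    exact Finset.sum_nonneg fun s _ => Finset.sum_nonneg fun t _ =>
      mul_nonneg (hγ'.nonneg s t) (tupleDist_nonneg s t)
  · refine ⟨γ, ⟨?_, ?_, ?_⟩, ?_⟩
    · intro s t
      positivity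
    · intro s
      simp only [γ, wordLaw]
      rw [← Finset.sum_div, ← Nat.cast_sum]
      congr 2
      rw [Finset.card_eq_sum_card_fiberwise (f := fun σ => (e σ).1) (t := univ)
        (fun _ _ => mem_coe.2 (mem_univ _))]
      refine Finset.sum_congr rfl fun t _ => ?_
      rw [Finset.filter_filter]
    · intro t
      simp only [γ, uniformLaw]
      rw [← Finset.sum_div, ← Nat.cast_sum]
      have h1 : ∑ s, (univ.filter fun σ : Fin r → Perm (Fin n) =>
          wordMap w n σ = s ∧ (e σ).1 = t).card =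
          (univ.filter fun σ : Fin r → Perm (Fin n) => (e σ).1 = t).card := by
        rw [Finset.card_eq_sum_card_fiberwise (f := fun σ => wordMap w n σ) (t := univ)
          (fun _ _ => mem_coe.2 (mem_univ _))]
        refine Finset.sum_congr rfl fun s _ => ?_
        rw [Finset.filter_filter]
        congr 1
        ext σ
        simp only [mem_filter, mem_univ, true_and]
        exact and_comm
      have h2 : (univ.filter fun σ : Fin r → Perm (Fin n) => (e σ).1 = t).card =
          Fintype.card Z := by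
        rw [← Finset.card_univ]
        refine Finset.card_bij' (fun σ _ => (e σ).2) (fun z _ => e.symm (t, z)) ?_ ?_ ?_ ?_
        · intro σ _
          exact mem_univ _
        · intro z _
          simp
        · intro σ hσ
          have := (mem_filter.1 hσ).2
          rw [← this]
          simp
        · intro z _
          simp
      have h3 : M = Fintype.card (Fin d → Perm (Fin n)) * Fintype.card Z := by
        rw [hM, Fintype.card_congr e, Fintype.card_prod, Nat.cast_mul]
      rw [h1, h2, h3]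
      have : (0 : ℝ) < Fintype.card (Fin d → Perm (Fin n)) := by exact_mod_cast Fintype.card_pos
      field_simp
    · simp only [γ]
      have h1 : ∀ s t : Fin d → Perm (Fin n),
          ((univ.filter fun σ : Fin r → Perm (Fin n) =>
            wordMap w n σ = s ∧ (e σ).1 = t).card : ℝ) / M * tupleDist s t =
          (∑ σ, if wordMap w n σ = s ∧ (e σ).1 = t then
            tupleDist (wordMap w n σ) (e σ).1 else 0) / M := by
        intro s t
        rw [← Finset.sum_filter, div_mul_eq_mul_div]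
        congr 1
        rw [Finset.sum_congr rfl (g := fun _ => tupleDist s t), Finset.sum_const, nsmul_eq_mul]
        intro σ hσ
        have := (mem_filter.1 hσ).2
        rw [this.1, this.2]
      simp_rw [h1]
      simp_rw [← Finset.sum_div]
      congr 1
      have h2 : ∀ s : Fin d → Perm (Fin n), (∑ t, ∑ σ : Fin r → Perm (Fin n),
          if wordMap w n σ = s ∧ (e σ).1 = t then tupleDist (wordMap w n σ) (e σ).1 else 0) =
          ∑ σ : Fin r → Perm (Fin n), if wordMap w n σ = s then
            tupleDist (wordMap w n σ) (e σ).1 else 0 := by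
        intro s
        rw [Finset.sum_comm]
        refine Finset.sum_congr rfl fun σ _ => ?_
        by_cases hs : wordMap w n σ = s
        · simp [hs]
        · simp [hs]
      simp_rw [h2]
      rw [Finset.sum_comm]
      refine Finset.sum_congr rfl fun σ _ => ?_
      simp

/-- Word maps are Lipschitz. -/
theorem exists_lipschitz_word {r : ℕ} (w : FreeGroup (Fin r)) :
    ∃ c : ℝ, 0 ≤ c ∧ ∀ (n : ℕ) (σ τ : Fin r → Perm (Fin n)),
      hd (FreeGroup.lift σ w) (FreeGroup.lift τ w) ≤ c * td σ τ := by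
  refine FreeGroup.induction_on w ?_ ?_ ?_ ?_
  · refine ⟨0, le_rfl, fun n σ τ => ?_⟩
    rw [map_one, map_one, hd_self, zero_mul]
  · intro i
    refine ⟨1, zero_le_one, fun n σ τ => ?_⟩
    rw [FreeGroup.lift_apply_of, FreeGroup.lift_apply_of, one_mul]
    exact Finset.single_le_sum (f := fun i => hd (σ i) (τ i)) (fun i _ => hd_nonneg _ _)
      (mem_univ i)
  · intro i ih
    obtain ⟨c, hc, h⟩ := ih
    refine ⟨c, hc, fun n σ τ => ?_⟩
    rw [map_inv, map_inv, hd_inv]
    exact h n σ τ
  · intro x y hx hy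
    obtain ⟨c, hc, h⟩ := hx
    obtain ⟨c', hc', h'⟩ := hy
    refine ⟨c + c', add_nonneg hc hc', fun n σ τ => ?_⟩
    rw [map_mul, map_mul, add_mul]
    exact (hd_mul_le _ _ _ _).trans (add_le_add (h n σ τ) (h' n σ τ))

theorem exists_lipschitz {r d : ℕ} (w : Fin d → FreeGroup (Fin r)) :
    ∃ c : ℝ, 0 ≤ c ∧ ∀ (n : ℕ) (σ τ : Fin r → Perm (Fin n)),
      td (wordMap w n σ) (wordMap w n τ) ≤ c * td σ τ := by
  choose c hc h using fun i => exists_lipschitz_word (w i)
  refine ⟨∑ i, c i, Finset.sum_nonneg fun i _ => hc i, fun n σ τ => ?_⟩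
  rw [Finset.sum_mul]
  exact Finset.sum_le_sum fun i _ => h i n σ τ

/-- Blow-up for tuples of permutations. -/
theorem exists_blowup (d : ℕ) {ε : ℝ} (hε : 0 < ε) : ∃ κ : ℝ, 0 < κ ∧ ∀ (n : ℕ)
    (A : Finset (Fin d → Perm (Fin n))) (a : ℝ), A.Nonempty →
    Real.exp (-a) * Fintype.card (Fin d → Perm (Fin n)) ≤ A.card →
    (((univ : Finset (Fin d → Perm (Fin n))).filter fun x => ∀ y ∈ A, ε * n ≤ td x y).card : ℝ) ≤
      Fintype.card (Fin d → Perm (Fin n)) * Real.exp (a - κ * n) := by
  set l : ℝ := min (1 / 3) (ε / (36 * (d + 1))) with hl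
  have hd1 : (0 : ℝ) < 36 * (d + 1) := by positivity
  have hl0 : 0 < l := lt_min (by norm_num) (div_pos hε hd1)
  have hl3 : l ≤ 1 / 3 := min_le_left _ _
  have hle : l ≤ ε / (36 * (d + 1)) := min_le_right _ _
  refine ⟨l * ε / 2, by positivity, fun n A a hne hA => ?_⟩
  have h0 := (lap_tuple n d).blowup td_symm td_triangle td_nonneg td_self A hA hne (t := ε * n) hl0 hl3
  refine h0.trans ?_
  refine mul_le_mul_of_nonneg_left (Real.exp_le_exp.2 ?_) (Nat.cast_nonneg _)
  have h1 : l * (36 * (d + 1)) ≤ ε := (le_div_iff₀ hd1).1 hle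
  have h2 : l * (36 * d) ≤ ε := by nlinarith
  have hn : (0 : ℝ) ≤ n := Nat.cast_nonneg n
  have h3 : 2 * (9 * n * d) * l ^ 2 ≤ l * ε / 2 * n := by
    have : 2 * (9 * (n : ℝ) * d) * l ^ 2 = (l * (36 * d)) * (l * n) / 2 := by ring
    rw [this]
    have h4 : l * (36 * d) * (l * n) ≤ ε * (l * n) :=
      mul_le_mul_of_nonneg_right h2 (by positivity)
    linarith
  nlinarith


/-- Neighbourhoods of images. -/
theorem compl_small {r d n : ℕ} (w : Fin d → FreeGroup (Fin r)) {L : ℝ} (hL0 : 0 ≤ L)
    (hL : ∀ σ τ : Fin r → Perm (Fin n), td (wordMap w n σ) (wordMap w n τ) ≤ L * td σ τ)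
    {ε κ η δ : ℝ} (hδ : 0 < δ)
    (h1 : ∀ (A : Finset (Fin r → Perm (Fin n))) (a : ℝ), A.Nonempty →
      Real.exp (-a) * Fintype.card (Fin r → Perm (Fin n)) ≤ A.card →
      (((univ : Finset (Fin r → Perm (Fin n))).filter
        fun x => ∀ y ∈ A, ε * n ≤ td x y).card : ℝ) ≤
        Fintype.card (Fin r → Perm (Fin n)) * Real.exp (a - κ * n))
    (h2 : ∀ (A : Finset (Fin d → Perm (Fin n))) (a : ℝ), A.Nonempty →
      Real.exp (-a) * Fintype.card (Fin d → Perm (Fin n)) ≤ A.card →
      (((univ : Finset (Fin d → Perm (Fin n))).filter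
        fun x => ∀ y ∈ A, ε * n ≤ td x y).card : ℝ) ≤
        Fintype.card (Fin d → Perm (Fin n)) * Real.exp (a - κ * n))
    (T : Finset (Fin r → Perm (Fin n)))
    (hT : Real.exp (-(η * n)) * Fintype.card (Fin r → Perm (Fin n)) ≤ T.card)
    (hN : (((T ×ˢ T).filter fun p => wordMap w n p.1 = wordMap w n p.2).card : ℝ) *
      Fintype.card (Fin d → Perm (Fin n)) ≤
      Real.exp (η * n) * (Fintype.card (Fin r → Perm (Fin n)) : ℝ) ^ 2)
    (hn1 : Real.exp (-Real.log δ - κ * n) ≤ Real.exp (-(η * n)) / 2)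
    (hn2 : Real.exp (3 * (η * n) + Real.log 4 - κ * n) ≤ δ)
    (A : Finset (Fin r → Perm (Fin n)))
    (hA : δ * Fintype.card (Fin r → Perm (Fin n)) ≤ A.card) (hAne : A.Nonempty) :
    (((univ : Finset (Fin d → Perm (Fin n))).filter
      fun y => ∀ a ∈ A, (L + 1) * ε * n < td (wordMap w n a) y).card : ℝ) ≤
      δ * Fintype.card (Fin d → Perm (Fin n)) := by
  classical
  have hM : (0 : ℝ) < Fintype.card (Fin r → Perm (Fin n)) := by exact_mod_cast Fintype.card_pos
  have hM' : (0 : ℝ) < Fintype.card (Fin d → Perm (Fin n)) := by exact_mod_cast Fintype.card_pos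
  set M : ℝ := ((Fintype.card (Fin r → Perm (Fin n)) : ℕ) : ℝ) with hMdef
  set M' : ℝ := ((Fintype.card (Fin d → Perm (Fin n)) : ℕ) : ℝ) with hM'def
  -- step 1
  have s1 := h1 A (-Real.log δ) hAne (by rwa [neg_neg, Real.exp_log hδ])
  set C : Finset (Fin r → Perm (Fin n)) :=
    (univ : Finset (Fin r → Perm (Fin n))).filter fun x => ∀ y ∈ A, ε * n ≤ td x y with hC
  have s2 : (C.card : ℝ) ≤ M * (Real.exp (-(η * n)) / 2) :=
    s1.trans (mul_le_mul_of_nonneg_left hn1 hM.le)
  set B : Finset (Fin r → Perm (Fin n)) := T \ C with hB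
  have s3 : Real.exp (-(η * n)) / 2 * M ≤ (B.card : ℝ) := by
    have h3 : T.card ≤ B.card + C.card := by
      have := Finset.card_le_card_sdiff_add_card (s := T) (t := C)
      exact this
    have h4 : (T.card : ℝ) ≤ B.card + C.card := by exact_mod_cast h3
    linarith
  have hBne : B.Nonempty := by
    rw [← Finset.card_pos]
    have : (0 : ℝ) < B.card := lt_of_lt_of_le (by positivity) s3
    exact_mod_cast this
  -- step 2
  set N : ℝ := (((T ×ˢ T).filter fun p => wordMap w n p.1 = wordMap w n p.2).card : ℝ) with hNdef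
  have s4 : (B.card : ℝ) ^ 2 ≤ (B.image (wordMap w n)).card * N := by
    have h3 := card_sq_le_image_mul (wordMap w n) B
    have h4 : ((B ×ˢ B).filter fun p => wordMap w n p.1 = wordMap w n p.2).card ≤
        ((T ×ˢ T).filter fun p => wordMap w n p.1 = wordMap w n p.2).card := by
      apply card_le_card
      apply filter_subset_filter
      exact product_subset_product sdiff_subset sdiff_subset
    have h5 : B.card ^ 2 ≤ (B.image (wordMap w n)).card *
        ((T ×ˢ T).filter fun p => wordMap w n p.1 = wordMap w n p.2).card :=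
      h3.trans (Nat.mul_le_mul_left _ h4)
    rw [hNdef]
    exact_mod_cast h5
  have s5 : Real.exp (-(3 * (η * n) + Real.log 4)) * M' ≤ (B.image (wordMap w n)).card := by
    have h3 : (Real.exp (-(η * n)) / 2 * M) ^ 2 ≤ (B.card : ℝ) ^ 2 :=
      pow_le_pow_left₀ (by positivity) s3 2
    have h4 : (Real.exp (-(η * n)) / 2 * M) ^ 2 * M' ≤
        (B.image (wordMap w n)).card * (Real.exp (η * n) * M ^ 2) := by
      calc (Real.exp (-(η * n)) / 2 * M) ^ 2 * M' ≤
          ((B.image (wordMap w n)).card * N) * M' :=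
            mul_le_mul_of_nonneg_right (h3.trans s4) hM'.le
        _ = (B.image (wordMap w n)).card * (N * M') := by ring
        _ ≤ (B.image (wordMap w n)).card * (Real.exp (η * n) * M ^ 2) :=
            mul_le_mul_of_nonneg_left hN (Nat.cast_nonneg _)
    have h5 : Real.exp (-(3 * (η * n) + Real.log 4)) = Real.exp (-(η * n)) ^ 2 / 4 /
        Real.exp (η * n) := by
      rw [neg_add, Real.exp_add, Real.exp_neg (Real.log 4), Real.exp_log (by norm_num),
        ← Real.exp_nat_mul, eq_div_iff (Real.exp_ne_zero _)]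
      rw [mul_assoc, mul_comm _ (Real.exp (η * n)), ← mul_assoc, ← Real.exp_add]
      rw [← div_eq_mul_inv]
      congr 2
      push_cast
      ring
    rw [h5]
    have hexp : 0 < Real.exp (η * n) := Real.exp_pos _
    have h6 : (Real.exp (-(η * n)) / 2 * M) ^ 2 * M' =
        (Real.exp (-(η * n)) ^ 2 / 4 / Real.exp (η * n) * M') * (Real.exp (η * n) * M ^ 2) := by
      field_simp
      norm_num
    rw [h6] at h4
    exact le_of_mul_le_mul_right h4 (by positivity)
  -- step 3
  have s6 := h2 (B.image (wordMap w n)) (3 * (η * n) + Real.log 4) (hBne.image _) s5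
  have s7 : M' * Real.exp (3 * (η * n) + Real.log 4 - κ * n) ≤ δ * M' := by
    rw [mul_comm]
    exact mul_le_mul_of_nonneg_right hn2 hM'.le
  refine le_trans ?_ (s6.trans s7)
  -- step 4
  have s8 : ((univ : Finset (Fin d → Perm (Fin n))).filter
      fun y => ∀ a ∈ A, (L + 1) * ε * n < td (wordMap w n a) y).card ≤
      ((univ : Finset (Fin d → Perm (Fin n))).filter
        fun x => ∀ y ∈ B.image (wordMap w n), ε * n ≤ td x y).card := by
    apply card_le_card
    intro y hy
    rw [mem_filter] at hy ⊢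
    refine ⟨mem_univ _, fun z hz => ?_⟩
    obtain ⟨σ, hσ, rfl⟩ := mem_image.1 hz
    by_contra hcon
    rw [not_le] at hcon
    have hσC : σ ∉ C := (mem_sdiff.1 hσ).2
    have : ∃ a ∈ A, td σ a < ε * n := by
      by_contra hall
      apply hσC
      rw [hC, mem_filter]
      refine ⟨mem_univ _, fun a ha => ?_⟩
      by_contra hlt
      exact hall ⟨a, ha, not_le.1 hlt⟩
    obtain ⟨a, ha, hsa⟩ := this
    have h3 := hy.2 a ha
    have h4 : td (wordMap w n a) y ≤ L * td a σ + td y (wordMap w n σ) := by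
      refine (td_triangle _ (wordMap w n σ) _).trans ?_
      rw [td_symm (wordMap w n σ) y]
      exact add_le_add_left (hL a σ) _
    rw [td_symm a σ] at h4
    have h5 : L * td σ a ≤ L * (ε * n) := mul_le_mul_of_nonneg_left hsa.le hL0
    nlinarith
  exact_mod_cast s8

theorem kantorovich_nonneg {n d : ℕ} (μ ν : (Fin d → Perm (Fin n)) → ℝ) :
    0 ≤ kantorovich μ ν := by
  refine Real.sInf_nonneg ?_
  rintro c ⟨γ', hγ', rfl⟩
  exact Finset.sum_nonneg fun s _ => Finset.sum_nonneg fun t _ =>
    mul_nonneg (hγ'.nonneg s t) (tupleDist_nonneg s t)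

/-- **Criterion.** If the word map has few coincidences on a set which is not exponentially small,
then the tuple is simultaneously asymptotically equidistributed. -/
theorem isSAE_of_flat {r d : ℕ} (hdr : d ≤ r) (w : Fin d → FreeGroup (Fin r))
    (h : ∀ η : ℝ, 0 < η → ∀ᶠ n : ℕ in atTop, ∃ T : Finset (Fin r → Perm (Fin n)),
      Real.exp (-(η * n)) * Fintype.card (Fin r → Perm (Fin n)) ≤ T.card ∧
      (((T ×ˢ T).filter fun p => wordMap w n p.1 = wordMap w n p.2).card : ℝ) *
        Fintype.card (Fin d → Perm (Fin n)) ≤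
        Real.exp (η * n) * (Fintype.card (Fin r → Perm (Fin n)) : ℝ) ^ 2) : IsSAE w := by
  classical
  obtain ⟨L, hL0, hL⟩ := exists_lipschitz w
  refine tendsto_order.2 ⟨fun a ha => Eventually.of_forall fun n =>
    lt_of_lt_of_le ha (kantorovich_nonneg _ _), fun ε hε => ?_⟩
  set ε1 : ℝ := ε / (4 * (L + 1)) with hε1def
  have hL1 : 0 < 4 * (L + 1) := by linarith
  have hε1 : 0 < ε1 := div_pos hε hL1
  have hε1' : (L + 1) * ε1 = ε / 4 := by
    rw [hε1def]
    field_simp
  set δ : ℝ := ε / (4 * (d + 1)) with hδdef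
  have hd1 : (0 : ℝ) < 4 * (d + 1) := by positivity
  have hδ : 0 < δ := div_pos hε hd1
  have hδd : δ * d ≤ ε / 4 := by
    rw [hδdef, div_mul_eq_mul_div, div_le_div_iff₀ hd1 (by norm_num)]
    nlinarith
  obtain ⟨κ1, hκ1, H1⟩ := exists_blowup r hε1
  obtain ⟨κ2, hκ2, H2⟩ := exists_blowup d hε1
  set κ : ℝ := min κ1 κ2 with hκdef
  have hκ : 0 < κ := lt_min hκ1 hκ2
  have hη : 0 < κ / 8 := by linarith
  obtain ⟨N0, hN0⟩ := exists_nat_ge (2 * (Real.log 4 - Real.log δ) / κ)
  filter_upwards [h (κ / 8) hη, eventually_ge_atTop N0, eventually_ge_atTop 1] with n hn hnN hn1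
  obtain ⟨T, hT1, hT2⟩ := hn
  have hn0 : (0 : ℝ) < n := by exact_mod_cast hn1
  have hbig : 2 * (Real.log 4 - Real.log δ) ≤ κ * n := by
    have h1 : 2 * (Real.log 4 - Real.log δ) / κ ≤ n := hN0.trans (by exact_mod_cast hnN)
    rw [div_le_iff₀ hκ] at h1
    linarith
  have hlog4 : Real.log 4 = 2 * Real.log 2 := by
    rw [show (4 : ℝ) = 2 ^ 2 by norm_num, Real.log_pow]
    norm_num
  have hlog2 : 0 < Real.log 2 := Real.log_pos (by norm_num)
  have c1 : Real.exp (-Real.log δ - κ * n) ≤ Real.exp (-(κ / 8 * n)) / 2 := by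
    have h1 : Real.exp (-(κ / 8 * n)) / 2 = Real.exp (-(κ / 8 * n) - Real.log 2) := by
      rw [Real.exp_sub, Real.exp_log (by norm_num)]
    rw [h1, Real.exp_le_exp]
    have : 0 < κ * n := mul_pos hκ hn0
    nlinarith
  have c2 : Real.exp (3 * (κ / 8 * n) + Real.log 4 - κ * n) ≤ δ := by
    rw [← Real.le_log_iff_exp_le hδ]
    have : 0 < κ * n := mul_pos hκ hn0
    nlinarith
  have b1 : ∀ (A : Finset (Fin r → Perm (Fin n))) (a : ℝ), A.Nonempty →
      Real.exp (-a) * Fintype.card (Fin r → Perm (Fin n)) ≤ A.card →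
      (((univ : Finset (Fin r → Perm (Fin n))).filter
        fun x => ∀ y ∈ A, ε1 * n ≤ td x y).card : ℝ) ≤
        Fintype.card (Fin r → Perm (Fin n)) * Real.exp (a - κ * n) := by
    intro A a hne hA
    refine (H1 n A a hne hA).trans (mul_le_mul_of_nonneg_left (Real.exp_le_exp.2 ?_)
      (Nat.cast_nonneg _))
    have : κ * n ≤ κ1 * n := mul_le_mul_of_nonneg_right (min_le_left _ _) hn0.le
    linarith
  have b2 : ∀ (A : Finset (Fin d → Perm (Fin n))) (a : ℝ), A.Nonempty →
      Real.exp (-a) * Fintype.card (Fin d → Perm (Fin n)) ≤ A.card →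
      (((univ : Finset (Fin d → Perm (Fin n))).filter
        fun x => ∀ y ∈ A, ε1 * n ≤ td x y).card : ℝ) ≤
        Fintype.card (Fin d → Perm (Fin n)) * Real.exp (a - κ * n) := by
    intro A a hne hA
    refine (H2 n A a hne hA).trans (mul_le_mul_of_nonneg_left (Real.exp_le_exp.2 ?_)
      (Nat.cast_nonneg _))
    have : κ * n ≤ κ2 * n := mul_le_mul_of_nonneg_right (min_le_right _ _) hn0.le
    linarith
  have hM : (0 : ℝ) < Fintype.card (Fin r → Perm (Fin n)) := by exact_mod_cast Fintype.card_pos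
  have hcardY : Fintype.card (Fin r → Perm (Fin n)) =
      Fintype.card ((Fin d → Perm (Fin n)) × (Fin (r - d) → Perm (Fin n))) := by
    rw [Fintype.card_prod, Fintype.card_fun, Fintype.card_fun, Fintype.card_fun, Fintype.card_fin,
      Fintype.card_fin, Fintype.card_fin, ← pow_add, Nat.add_sub_cancel' hdr]
  set M : ℝ := ((Fintype.card (Fin r → Perm (Fin n)) : ℕ) : ℝ) with hMdef
  obtain ⟨e, he⟩ := exists_matching hcardY
    (fun σ y => td (wordMap w n σ) y.1 ≤ (L + 1) * ε1 * n) ⌊δ * M⌋₊ (by
      intro A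
      by_cases hA : A.card ≤ ⌊δ * M⌋₊
      · exact hA.trans (Nat.le_add_left _ _)
      · rw [not_le] at hA
        have hA1 : δ * M ≤ A.card := by
          have := Nat.lt_floor_add_one (δ * M)
          have h2 : ((⌊δ * M⌋₊ + 1 : ℕ) : ℝ) ≤ A.card := by exact_mod_cast hA
          push_cast at h2
          linarith
        have hAne : A.Nonempty := Finset.card_pos.1 (lt_of_le_of_lt (Nat.zero_le _) hA)
        have key := compl_small w hL0 (hL n) hδ b1 b2 T hT1 hT2 c1 c2 A hA1 hAne
        have h3 : ((univ : Finset ((Fin d → Perm (Fin n)) × (Fin (r - d) → Perm (Fin n)))).filter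
            fun y => ¬ ∃ σ ∈ A, td (wordMap w n σ) y.1 ≤ (L + 1) * ε1 * n) =
            ((univ : Finset (Fin d → Perm (Fin n))).filter
              fun y => ∀ a ∈ A, (L + 1) * ε1 * n < td (wordMap w n a) y) ×ˢ univ := by
          ext ⟨y, z⟩
          simp only [mem_filter, mem_univ, true_and, mem_product, and_true, not_exists, not_and,
            not_le]
        have h4 : (((univ : Finset ((Fin d → Perm (Fin n)) ×
            (Fin (r - d) → Perm (Fin n)))).filter
            fun y => ¬ ∃ σ ∈ A, td (wordMap w n σ) y.1 ≤ (L + 1) * ε1 * n).card : ℝ) ≤ δ * M := by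
          rw [h3, card_product, card_univ, Nat.cast_mul, hMdef, hcardY, Fintype.card_prod,
            Nat.cast_mul, ← mul_assoc]
          exact mul_le_mul_of_nonneg_right key (Nat.cast_nonneg _)
        have h5 := Nat.le_floor h4
        have h6 := Finset.card_filter_add_card_filter_not (s := (univ : Finset ((Fin d → Perm (Fin n)) ×
            (Fin (r - d) → Perm (Fin n))))) (fun y => ∃ σ ∈ A,
              td (wordMap w n σ) y.1 ≤ (L + 1) * ε1 * n)
        have h7 : A.card ≤ Fintype.card ((Fin d → Perm (Fin n)) ×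
            (Fin (r - d) → Perm (Fin n))) := by
          rw [← hcardY]
          exact card_le_univ A
        rw [card_univ] at h6
        omega)
  refine lt_of_le_of_lt (kantorovich_le_of_equiv w e) ?_
  have hcost : ∑ σ, tupleDist (wordMap w n σ) (e σ).1 ≤ M * (ε / 4) + δ * M * d := by
    rw [← Finset.sum_filter_add_sum_filter_not univ
      (fun σ => td (wordMap w n σ) (e σ).1 ≤ (L + 1) * ε1 * n)]
    refine add_le_add ?_ ?_
    · calc ∑ σ ∈ univ.filter fun σ => td (wordMap w n σ) (e σ).1 ≤ (L + 1) * ε1 * n,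
            tupleDist (wordMap w n σ) (e σ).1
          ≤ ∑ _σ ∈ univ.filter fun σ => td (wordMap w n σ) (e σ).1 ≤ (L + 1) * ε1 * n,
            (ε / 4) := by
            refine Finset.sum_le_sum fun σ hσ => ?_
            have := (mem_filter.1 hσ).2
            rw [tupleDist_eq, div_le_iff₀ hn0, ← hε1']
            exact this
        _ ≤ M * (ε / 4) := by
            rw [Finset.sum_const, nsmul_eq_mul]
            refine mul_le_mul_of_nonneg_right ?_ (by linarith)
            rw [hMdef]
            exact_mod_cast card_le_univ _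
    · calc ∑ σ ∈ univ.filter fun σ => ¬ td (wordMap w n σ) (e σ).1 ≤ (L + 1) * ε1 * n,
            tupleDist (wordMap w n σ) (e σ).1
          ≤ ∑ _σ ∈ univ.filter fun σ => ¬ td (wordMap w n σ) (e σ).1 ≤ (L + 1) * ε1 * n,
            (d : ℝ) := Finset.sum_le_sum fun σ _ => tupleDist_le _ _
        _ ≤ δ * M * d := by
            rw [Finset.sum_const, nsmul_eq_mul]
            refine mul_le_mul_of_nonneg_right ?_ (Nat.cast_nonneg _)
            have h1 : ((univ.filter fun σ => ¬ td (wordMap w n σ) (e σ).1 ≤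
                (L + 1) * ε1 * n).card : ℝ) ≤ (⌊δ * M⌋₊ : ℝ) := by exact_mod_cast he
            exact h1.trans (Nat.floor_le (by positivity))
  rw [div_lt_iff₀ hM]
  have : M * (ε / 4) + δ * M * d = M * (ε / 4 + δ * d) := by ring
  rw [this] at hcost
  refine lt_of_le_of_lt hcost ?_
  rw [mul_comm]
  refine mul_lt_mul_of_pos_right ?_ hM
  linarith

end Pool.Agent.H11.SAE
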