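import Pool.Agent.H11.SAE.WordPath
import Pool.Agent.H11.SAE.Central

/-!
# A nontrivial word has few values with a large centralizer
-/

set_option autoImplicit false

namespace Pool.Agent.H11.SAE

open Finset Equiv FreeGroup

variable {s n : ℕ}

/-- The cyclically reduced core. -/
def core (v : FreeGroup (Fin s)) : List (Fin s × Bool) := reduceCyclically v.toWord

theorem core_ne_nil {v : FreeGroup (Fin s)} (hv : v ≠ 1) : core v ≠ [] := by
  intro h
  apply hv
  have h1 := reduceCyclically.conj_conjugator_reduceCyclically v.toWord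
  rw [core] at h
  rw [h, List.append_nil] at h1
  rw [← mk_toWord (x := v), ← h1, ← mul_mk, ← inv_mk, mul_inv_cancel]

theorem core_cyc (v : FreeGroup (Fin s)) : IsCyclicallyReduced (core v) :=
  reduceCyclically.isCyclicallyReduced isReduced_toWord

theorem eq_conj_core (v : FreeGroup (Fin s)) : ∃ c : FreeGroup (Fin s), v = c * mk (core v) * c⁻¹ := by
  refine ⟨mk (reduceCyclically.conjugator v.toWord), ?_⟩
  have h1 := reduceCyclically.conj_conjugator_reduceCyclically v.toWord
  rw [inv_mk, mul_mk, mul_mk]
  rw [core, h1, mk_toWord]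

theorem mk_flatten_replicate (L : List (Fin s × Bool)) (j : ℕ) :
    mk (List.replicate j L).flatten = (mk L : FreeGroup (Fin s)) ^ j := by
  induction j with
  | zero => rfl
  | succ j ih => rw [List.replicate_succ, List.flatten_cons, ← mul_mk, ih, pow_succ']

theorem pow_apply_eq_act (y : Fin s → Perm (Fin n)) (L : List (Fin s × Bool)) (j : ℕ)
    (p : Fin n) : ((FreeGroup.lift y (mk L)) ^ j) p = act y (List.replicate j L).flatten p := by
  rw [act_eq_lift, mk_flatten_replicate, map_pow]

/-- Fixed points of powers are rare. -/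
theorem card_pow_fix_le {L : List (Fin s × Bool)} (hL : IsCyclicallyReduced L) (hne : L ≠ [])
    {j K : ℕ} (hj : 1 ≤ j) (hjK : j ≤ K) (hK : 2 * (K * L.length) ≤ n) (p : Fin n) :
    (univ.filter fun y : Fin s → Perm (Fin n) => ((FreeGroup.lift y (mk L)) ^ j) p = p).card * n ≤
      2 * Fintype.card (Fin s → Perm (Fin n)) * (K * L.length) ^ 2 := by
  have hne' : (List.replicate j L).flatten ≠ [] := by
    obtain ⟨j, rfl⟩ := Nat.exists_eq_succ_of_ne_zero (by omega : j ≠ 0)
    rw [List.replicate_succ, List.flatten_cons]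
    simp [hne]
  have h1 := card_fix_le (β := Fin n) (List.replicate j L).flatten p
    (hL.flatten_replicate j).isReduced hne'
  have hlen : (List.replicate j L).flatten.length = j * L.length := by simp
  rw [hlen, Fintype.card_fin] at h1
  simp_rw [pow_apply_eq_act]
  set N := (univ.filter fun y : Fin s → Perm (Fin n) =>
    act y (List.replicate j L).flatten p = p).card with hN
  have h2 : j * L.length ≤ K * L.length := Nat.mul_le_mul_right _ hjK
  have h3 : n ≤ 2 * (n - j * L.length) := by omega
  calc N * n ≤ N * (2 * (n - j * L.length)) := Nat.mul_le_mul_left _ h3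
    _ = 2 * (N * (n - j * L.length)) := by ring
    _ ≤ 2 * (Fintype.card (Fin s → Perm (Fin n)) * (j * L.length) ^ 2) :=
        Nat.mul_le_mul_left _ h1
    _ ≤ 2 * (Fintype.card (Fin s → Perm (Fin n)) * (K * L.length) ^ 2) := by
        gcongr
    _ = _ := by ring

theorem sum_shortPts_le {L : List (Fin s × Bool)} (hL : IsCyclicallyReduced L) (hne : L ≠ [])
    {K : ℕ} (hK : 2 * (K * L.length) ≤ n) (hn : 0 < n) :
    ∑ y : Fin s → Perm (Fin n), (shortPts (FreeGroup.lift y (mk L)) K).card ≤
      K * (2 * Fintype.card (Fin s → Perm (Fin n)) * (K * L.length) ^ 2) := by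
  classical
  calc ∑ y : Fin s → Perm (Fin n), (shortPts (FreeGroup.lift y (mk L)) K).card
      ≤ ∑ y : Fin s → Perm (Fin n), ∑ j ∈ Finset.Icc 1 K,
          (univ.filter fun p => ((FreeGroup.lift y (mk L)) ^ j) p = p).card :=
        sum_le_sum fun y _ => card_biUnion_le
    _ = ∑ j ∈ Finset.Icc 1 K, ∑ y : Fin s → Perm (Fin n),
          (univ.filter fun p => ((FreeGroup.lift y (mk L)) ^ j) p = p).card := sum_comm
    _ ≤ ∑ _j ∈ Finset.Icc 1 K,
          (2 * Fintype.card (Fin s → Perm (Fin n)) * (K * L.length) ^ 2) := by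
        refine sum_le_sum fun j hj => ?_
        obtain ⟨hj1, hjK⟩ := Finset.mem_Icc.1 hj
        have h1 : ∑ y : Fin s → Perm (Fin n),
            (univ.filter fun p => ((FreeGroup.lift y (mk L)) ^ j) p = p).card =
            ∑ p : Fin n, (univ.filter fun y : Fin s → Perm (Fin n) =>
              ((FreeGroup.lift y (mk L)) ^ j) p = p).card := by
          simp_rw [card_filter]
          exact sum_comm
        rw [h1]
        have h2 : (∑ p : Fin n, (univ.filter fun y : Fin s → Perm (Fin n) =>
              ((FreeGroup.lift y (mk L)) ^ j) p = p).card) * n ≤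
            (2 * Fintype.card (Fin s → Perm (Fin n)) * (K * L.length) ^ 2) * n := by
          rw [sum_mul]
          calc _ ≤ ∑ _p : Fin n,
                (2 * Fintype.card (Fin s → Perm (Fin n)) * (K * L.length) ^ 2) :=
                sum_le_sum fun p _ => card_pow_fix_le hL hne hj1 hjK hK p
            _ = _ := by rw [sum_const, card_univ, Fintype.card_fin, smul_eq_mul, mul_comm]
        exact Nat.le_of_mul_le_mul_right h2 hn
    _ = _ := by rw [sum_const, Nat.card_Icc, smul_eq_mul, Nat.add_sub_cancel]

/-- The typical tuples. -/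
def typical (v : FreeGroup (Fin s)) (K n : ℕ) : Finset (Fin s → Perm (Fin n)) :=
  univ.filter fun y => (shortPts (FreeGroup.lift y (mk (core v))) K).card ≤
    4 * K ^ 3 * (core v).length ^ 2

theorem card_typical_ge {v : FreeGroup (Fin s)} (hv : v ≠ 1) {K : ℕ} (hK1 : 1 ≤ K)
    (hK : 2 * (K * (core v).length) ≤ n) :
    Fintype.card (Fin s → Perm (Fin n)) ≤ 2 * (typical v K n).card := by
  classical
  have hlen : 1 ≤ (core v).length := List.length_pos_iff.2 (core_ne_nil hv)
  have hn : 0 < n := by
    have : 1 ≤ K * (core v).length := Nat.mul_pos hK1 hlen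
    omega
  have h1 := sum_shortPts_le (core_cyc v) (core_ne_nil hv) hK hn
  set A := (univ : Finset (Fin s → Perm (Fin n))).filter fun y =>
    ¬ (shortPts (FreeGroup.lift y (mk (core v))) K).card ≤ 4 * K ^ 3 * (core v).length ^ 2 with hA
  have h2 : A.card * (4 * K ^ 3 * (core v).length ^ 2) ≤
      ∑ y : Fin s → Perm (Fin n), (shortPts (FreeGroup.lift y (mk (core v))) K).card := by
    calc A.card * (4 * K ^ 3 * (core v).length ^ 2)
        = ∑ _y ∈ A, (4 * K ^ 3 * (core v).length ^ 2) := by rw [sum_const, smul_eq_mul]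
      _ ≤ ∑ y ∈ A, (shortPts (FreeGroup.lift y (mk (core v))) K).card := by
          refine sum_le_sum fun y hy => ?_
          exact (not_le.1 (mem_filter.1 hy).2).le
      _ ≤ _ := sum_le_sum_of_subset (subset_univ _)
  have h3 : (typical v K n).card + A.card = Fintype.card (Fin s → Perm (Fin n)) := by
    rw [typical, hA, card_filter_add_card_filter_not, card_univ]
  have hpos : 0 < 2 * K ^ 3 * (core v).length ^ 2 := by positivity
  have h4 : (2 * A.card) * (2 * K ^ 3 * (core v).length ^ 2) ≤
      Fintype.card (Fin s → Perm (Fin n)) * (2 * K ^ 3 * (core v).length ^ 2) := by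
    calc (2 * A.card) * (2 * K ^ 3 * (core v).length ^ 2)
        = A.card * (4 * K ^ 3 * (core v).length ^ 2) := by ring
      _ ≤ _ := h2.trans h1
      _ = _ := by ring
  have h5 := Nat.le_of_mul_le_mul_right h4 hpos
  omega

/-- The values of `v` at typical tuples have small centralizers. -/
theorem cent_typical_le {v : FreeGroup (Fin s)} {K : ℕ} {y : Fin s → Perm (Fin n)}
    (hn : 0 < n) (hy : y ∈ typical v K n) :
    cent (FreeGroup.lift y v) ≤ n ^ (4 * K ^ 3 * (core v).length ^ 2 + n / (K + 1)) := by
  obtain ⟨c, hc⟩ := eq_conj_core v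
  have h1 : cent (FreeGroup.lift y v) ≤ cent (FreeGroup.lift y (mk (core v))) := by
    have h2 : FreeGroup.lift y v = FreeGroup.lift y c * FreeGroup.lift y (mk (core v)) *
        (FreeGroup.lift y c)⁻¹ := by
      conv_lhs => rw [hc]
      rw [_root_.map_mul, _root_.map_mul, _root_.map_inv]
    set g0 := FreeGroup.lift y c
    set h := FreeGroup.lift y (mk (core v))
    rw [h2]
    unfold cent
    refine card_le_card_of_injOn (fun x => g0⁻¹ * x * g0) ?_ ?_
    · intro x hx
      have hx' := (mem_filter.1 (mem_coe.1 hx)).2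
      simp only [coe_filter, mem_univ, true_and, Set.mem_ofPred_eq]
      show g0⁻¹ * x * g0 * h = h * (g0⁻¹ * x * g0)
      calc g0⁻¹ * x * g0 * h = g0⁻¹ * (x * (g0 * h * g0⁻¹)) * g0 := by group
        _ = g0⁻¹ * ((g0 * h * g0⁻¹) * x) * g0 := by rw [hx']
        _ = h * (g0⁻¹ * x * g0) := by group
    · intro x _ y _ hxy
      have : g0⁻¹ * x * g0 = g0⁻¹ * y * g0 := hxy
      simpa using this
  refine h1.trans ((cent_le _ K).trans ?_)
  rw [Fintype.card_fin]
  apply Nat.pow_le_pow_right hn
  exact Nat.add_le_add_right (mem_filter.1 hy).2 _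

theorem lift_conj (y : Fin s → Perm (Fin n)) (g : Perm (Fin n)) (v : FreeGroup (Fin s)) :
    FreeGroup.lift (fun i => g * y i * g⁻¹) v = g * FreeGroup.lift y v * g⁻¹ := by
  have : (FreeGroup.lift (fun i => g * y i * g⁻¹) : FreeGroup (Fin s) →* Perm (Fin n)) =
      (MulAut.conj g).toMonoidHom.comp (FreeGroup.lift y) := by
    ext i
    simp
  rw [this]
  simp

/-- The fibres of `v` in the set of typical tuples are small. -/
theorem card_fiber_typical_le (v : FreeGroup (Fin s)) (K : ℕ) (hn : 0 < n) (h : Perm (Fin n)) :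
    ((typical v K n).filter fun y => FreeGroup.lift y v = h).card *
      Fintype.card (Perm (Fin n)) ≤
      n ^ (4 * K ^ 3 * (core v).length ^ 2 + n / (K + 1)) *
        Fintype.card (Fin s → Perm (Fin n)) := by
  classical
  rcases ((typical v K n).filter fun y => FreeGroup.lift y v = h).eq_empty_or_nonempty with
    he | ⟨y, hy⟩
  · rw [he, card_empty, zero_mul]
    exact Nat.zero_le _
  · obtain ⟨hy1, hy2⟩ := mem_filter.1 hy
    have h1 := card_fiber_mul_le (fun y : Fin s → Perm (Fin n) => FreeGroup.lift y v)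
      (fun g y => lift_conj y g v) h
    have h2 : cent h ≤ n ^ (4 * K ^ 3 * (core v).length ^ 2 + n / (K + 1)) := by
      rw [← hy2]
      exact cent_typical_le hn hy1
    refine le_trans ?_ (h1.trans (Nat.mul_le_mul_right _ h2))
    apply Nat.mul_le_mul_right
    apply card_le_card
    exact filter_subset_filter _ (subset_univ _)

/-- Summing the centralizer sizes over typical tuples. -/
theorem sum_cent_typical_le (v : FreeGroup (Fin s)) (K : ℕ) (hn : 0 < n)
    (θ : Perm (Fin n) ≃ Perm (Fin n)) :
    ∑ y ∈ typical v K n, cent (θ (FreeGroup.lift y v)) ≤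
      n ^ (4 * K ^ 3 * (core v).length ^ 2 + n / (K + 1)) *
        Fintype.card (Fin s → Perm (Fin n)) *
        Nat.card (ConjClasses (Perm (Fin n))) := by
  classical
  have h1 : ∑ y ∈ typical v K n, cent (θ (FreeGroup.lift y v)) =
      ∑ h : Perm (Fin n),
        ((typical v K n).filter fun y => FreeGroup.lift y v = h).card * cent (θ h) := by
    rw [← sum_fiberwise_of_maps_to (g := fun y => FreeGroup.lift y v) (t := univ)
      (fun _ _ => mem_univ _)]
    refine sum_congr rfl fun h _ => ?_
    rw [← smul_eq_mul, ← sum_const]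
    refine sum_congr rfl fun y hy => ?_
    rw [(mem_filter.1 hy).2]
  have hG : 0 < Fintype.card (Perm (Fin n)) := Fintype.card_pos
  apply Nat.le_of_mul_le_mul_right _ hG
  rw [h1, sum_mul]
  calc ∑ h : Perm (Fin n), ((typical v K n).filter fun y => FreeGroup.lift y v = h).card *
        cent (θ h) * Fintype.card (Perm (Fin n))
      = ∑ h : Perm (Fin n), (((typical v K n).filter fun y => FreeGroup.lift y v = h).card *
        Fintype.card (Perm (Fin n))) * cent (θ h) := sum_congr rfl fun h _ => by ring
    _ ≤ ∑ h : Perm (Fin n), (n ^ (4 * K ^ 3 * (core v).length ^ 2 + n / (K + 1)) *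
        Fintype.card (Fin s → Perm (Fin n))) * cent (θ h) :=
        sum_le_sum fun h _ => Nat.mul_le_mul_right _ (card_fiber_typical_le v K hn h)
    _ = (n ^ (4 * K ^ 3 * (core v).length ^ 2 + n / (K + 1)) *
        Fintype.card (Fin s → Perm (Fin n))) * ∑ h : Perm (Fin n), cent h := by
        rw [← mul_sum]
        congr 1
        exact Equiv.sum_comp θ cent
    _ = _ := by
        rw [sum_cent]
        ring

end Pool.Agent.H11.SAE
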