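import Pool.Agent.H11.SAE.Pair

/-!
# Pairs of words in which the first letter has one syllable

Let `x, y_1, …, y_s` be the basis of the free group on `s + 1` letters. For all words `u, v` in
`y_1, …, y_s`, not both trivial, and all nonzero integers `j, k` the pair `(x ^ j, u x ^ k v)` is
simultaneously asymptotically equidistributed. For `s = 1`, `j = k = 1`, `u = y ^ 2`, `v = y⁻¹` this
is the pair `(x, y ^ 2 x y⁻¹)`.

Idea: restricted to a set of tuples which is not exponentially small, the word map has at most
`exp (o(n)) (n!) ^ (2 s)` coincidences (the equation `u(y) X v(y) = u(z) X v(z)` says that `X`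
conjugates one element to another, so that the number of its solutions is at most the order of a
centralizer; and the centralizer orders add up to `n!` times the number of conjugacy classes, which
is `exp (o(n))`). Concentration of measure on `S_n ^ r` and Hall's theorem turn this into closeness
in the Kantorovich distance.
-/

set_option autoImplicit false

namespace Pool.Agent.H11.SAE.OneSyllable

open Pool.Agent.H11.SAE

/-- The pair `(x ^ j, u x ^ k v)`, where `x` is the letter `0` and `u`, `v` are words in the other
letters, is simultaneously asymptotically equidistributed. -/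
theorem result (s : ℕ) (u v : FreeGroup (Fin s)) (huv : ¬ (u = 1 ∧ v = 1)) (j k : ℤ)
    (hj : j ≠ 0) (hk : k ≠ 0) :
    IsSAE (r := s + 1) (d := 2)
      ![(FreeGroup.of 0) ^ j,
        FreeGroup.map Fin.succ u * (FreeGroup.of 0) ^ k * FreeGroup.map Fin.succ v] := by
  by_cases hv : v = 1
  · have hu : u ≠ 1 := fun h => huv ⟨h, hv⟩
    exact isSAE_pair u v hj hk u hu fun n K hn y => sum_intertwine_left_le u v K hn y
  · exact isSAE_pair u v hj hk v hv fun n K hn y => sum_intertwine_right_le u v K hn y

end Pool.Agent.H11.SAE.OneSyllable
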