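import Pool.Agent.H11.SAE.Central

/-!
# Permutations of order dividing `m`
-/

set_option autoImplicit false

namespace Pool.Agent.H11.SAE

open Finset Equiv

/-- The model permutation on `q` cycles of length `m` and `ρ` fixed points. -/
def model (q m ρ : ℕ) : Perm ((Fin q × Fin m) ⊕ Fin ρ) :=
  Equiv.sumCongr (Equiv.prodCongr (Equiv.refl (Fin q)) (finRotate m)) (Equiv.refl (Fin ρ))

theorem model_pow_inl (q m ρ k : ℕ) (i : Fin q) (j : Fin m) :
    ((model q m ρ) ^ k) (Sum.inl (i, j)) = Sum.inl (i, ((finRotate m) ^ k) j) := by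
  induction k with
  | zero => rfl
  | succ k ih =>
    rw [pow_succ', pow_succ', Perm.mul_apply, ih, Perm.mul_apply]
    rfl

theorem model_pow_inr (q m ρ k : ℕ) (j : Fin ρ) :
    ((model q m ρ) ^ k) (Sum.inr j) = Sum.inr j := by
  induction k with
  | zero => rfl
  | succ k ih =>
    rw [pow_succ', Perm.mul_apply, ih]
    rfl

theorem finRotate_pow_val (m k : ℕ) (j : Fin (m + 1)) :
    (((finRotate (m + 1)) ^ k) j : ℕ) = (j + k) % (m + 1) := by
  induction k with
  | zero => simp [Nat.mod_eq_of_lt j.2]
  | succ k ih =>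
    rw [pow_succ', Perm.mul_apply, finRotate_apply, Fin.val_add, ih,
      show ((1 : Fin (m + 1)) : ℕ) = 1 % (m + 1) from rfl, ← Nat.add_mod,
      add_assoc]

theorem model_pow_self (q m ρ : ℕ) : (model q m ρ) ^ m = 1 := by
  ext a
  rcases a with ⟨i, j⟩ | j
  · rw [model_pow_inl]
    cases m with
    | zero => exact j.elim0
    | succ m =>
      have : ((finRotate (m + 1)) ^ (m + 1)) j = j := by
        apply Fin.ext
        rw [finRotate_pow_val, Nat.add_mod_right, Nat.mod_eq_of_lt j.2]
      rw [this]
      rfl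
  · rw [model_pow_inr]
    rfl

theorem cent_model_le (q m ρ : ℕ) (hm : 0 < m) :
    cent (model q m ρ) ≤ (q * m + ρ) ^ (q + ρ) := by
  obtain ⟨m, rfl⟩ := Nat.exists_eq_succ_of_ne_zero hm.ne'
  have h1 := cent_le_pow_reps (κ := Fin q ⊕ Fin ρ) (model q (m + 1) ρ)
    (Sum.elim (fun i => Sum.inl (i, 0)) (fun j => Sum.inr j)) (by
      rintro (⟨i, j⟩ | j)
      · refine ⟨Sum.inl i, (j : ℕ), ?_⟩
        rw [zpow_natCast]
        simp only [Sum.elim_inl]
        rw [model_pow_inl]
        congr 2
        apply Fin.ext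
        rw [finRotate_pow_val]
        simp [Nat.mod_eq_of_lt j.2]
      · exact ⟨Sum.inr j, 0, by simp⟩)
  simpa using h1

/-- The centralizer size is invariant under relabelling. -/
theorem cent_conj {β γ : Type} [Fintype β] [DecidableEq β] [Fintype γ] [DecidableEq γ] (e : β ≃ γ)
    (h : Perm β) : cent (e.permCongr h) = cent h := by
  unfold cent
  refine (card_bij' (fun x _ => e.permCongr x) (fun x _ => e.symm.permCongr x) ?_ ?_ ?_ ?_).symm
  · intro x hx
    rw [mem_filter] at hx ⊢
    refine ⟨mem_univ _, ?_⟩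
    rw [← Equiv.permCongr_mul, ← Equiv.permCongr_mul, hx.2]
  · intro x hx
    rw [mem_filter] at hx ⊢
    refine ⟨mem_univ _, ?_⟩
    have h1 : e.permCongr (e.symm.permCongr x * h) = e.permCongr (h * e.symm.permCongr x) := by
      rw [Equiv.permCongr_mul, Equiv.permCongr_mul]
      have h2 : e.permCongr (e.symm.permCongr x) = x := by
        ext a
        simp [Equiv.permCongr_apply]
      rw [h2]
      exact hx.2
    exact e.permCongr.injective h1
  · intro x _
    ext a
    simp [Equiv.permCongr_apply]
  · intro x _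
    ext a
    simp [Equiv.permCongr_apply]

/-- There are many permutations of order dividing `m`. -/
theorem card_roots_ge (n m : ℕ) (hm : 0 < m) :
    Fintype.card (Perm (Fin n)) ≤
      n ^ (n / m + n % m) * (univ.filter fun x : Perm (Fin n) => x ^ m = 1).card := by
  have hcard : Fintype.card ((Fin (n / m) × Fin m) ⊕ Fin (n % m)) = Fintype.card (Fin n) := by
    simp only [Fintype.card_sum, Fintype.card_prod, Fintype.card_fin]
    rw [mul_comm]
    exact Nat.div_add_mod n m
  let e := Fintype.equivOfCardEq hcard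
  let x0 : Perm (Fin n) := e.permCongr (model (n / m) m (n % m))
  have hx0 : x0 ^ m = 1 := by
    have h1 : x0 ^ m = e.permCongr ((model (n / m) m (n % m)) ^ m) := by
      have h2 : ∀ k : ℕ, x0 ^ k = e.permCongr ((model (n / m) m (n % m)) ^ k) := by
        intro k
        induction k with
        | zero =>
          ext a
          simp
        | succ k ih => rw [pow_succ, pow_succ, ih, Equiv.permCongr_mul]
      exact h2 m
    rw [h1, model_pow_self]
    ext a
    simp
  have h1 := card_le_cent_mul x0 (univ.filter fun x : Perm (Fin n) => x ^ m = 1) (by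
    intro g
    rw [mem_filter]
    refine ⟨mem_univ _, ?_⟩
    rw [conj_pow, hx0, mul_one, mul_inv_cancel])
  refine h1.trans (Nat.mul_le_mul_right _ ?_)
  have h2 := cent_model_le (n / m) m (n % m) hm
  rw [← cent_conj e] at h2
  have h3 : n / m * m + n % m = n := by
    rw [mul_comm]
    exact Nat.div_add_mod n m
  rwa [h3] at h2

end Pool.Agent.H11.SAE
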