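import Pool.Agent.H11.SAE.Criterion
import Pool.Agent.H11.SAE.FlatWord
import Pool.Agent.H11.SAE.Roots
import Pool.Agent.H11.SAE.Classes
import Pool.Agent.H11.SAE.Asymp

/-!
# Pairs of words with one syllable of the first letter
-/

set_option autoImplicit false

namespace Pool.Agent.H11.SAE

open Finset Equiv Filter

/-- The pair `(x ^ j, u x ^ k v)`. -/
def pairWord {s : ℕ} (u v : FreeGroup (Fin s)) (j k : ℤ) : Fin 2 → FreeGroup (Fin (s + 1)) :=
  ![(FreeGroup.of 0) ^ j,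
    FreeGroup.map Fin.succ u * (FreeGroup.of 0) ^ k * FreeGroup.map Fin.succ v]

theorem lift_map_succ {s n : ℕ} (σ : Fin (s + 1) → Perm (Fin n)) (u : FreeGroup (Fin s)) :
    FreeGroup.lift σ (FreeGroup.map Fin.succ u) = FreeGroup.lift (fun i => σ i.succ) u := by
  have : (FreeGroup.lift σ).comp (FreeGroup.map Fin.succ) =
      (FreeGroup.lift fun i => σ (Fin.succ i) : FreeGroup (Fin s) →* Perm (Fin n)) := by
    ext i
    simp
  exact DFunLike.congr_fun this u

theorem wordMap_pair_zero {s n : ℕ} (u v : FreeGroup (Fin s)) (j k : ℤ)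
    (σ : Fin (s + 1) → Perm (Fin n)) : wordMap (pairWord u v j k) n σ 0 = (σ 0) ^ j := by
  simp [wordMap, pairWord]

theorem wordMap_pair_one {s n : ℕ} (u v : FreeGroup (Fin s)) (j k : ℤ)
    (σ : Fin (s + 1) → Perm (Fin n)) : wordMap (pairWord u v j k) n σ 1 =
      FreeGroup.lift (fun i => σ i.succ) u * (σ 0) ^ k * FreeGroup.lift (fun i => σ i.succ) v := by
  simp [wordMap, pairWord, lift_map_succ]

theorem eq_of_zpow_eq {G : Type} [Group G] {m : ℕ} {j : ℤ} (h : IsCoprime j (m : ℤ)) {x y : G}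
    (hx : x ^ m = 1) (hy : y ^ m = 1) (hxy : x ^ j = y ^ j) : x = y := by
  obtain ⟨a, b, hab⟩ := h
  have key : ∀ z : G, z ^ m = 1 → z = (z ^ j) ^ a := by
    intro z hz
    calc z = z ^ (a * j + b * (m : ℤ)) := by rw [hab, zpow_one]
      _ = (z ^ j) ^ a := by
          rw [zpow_add, mul_comm a j, zpow_mul, mul_comm b, zpow_mul, zpow_natCast, hz, one_zpow,
            mul_one]
  rw [key x hx, key y hy, hxy]

/-- The set of tuples with `x ^ m = 1` and the other entries in `T'`. -/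
def goodSet {s n : ℕ} (m : ℕ) (T' : Finset (Fin s → Perm (Fin n))) :
    Finset (Fin (s + 1) → Perm (Fin n)) :=
  univ.filter fun σ => (σ 0) ^ m = 1 ∧ (fun i => σ (Fin.succ i)) ∈ T'

theorem card_goodSet_ge {s n : ℕ} (m : ℕ) (T' : Finset (Fin s → Perm (Fin n))) :
    (univ.filter fun x : Perm (Fin n) => x ^ m = 1).card * T'.card ≤ (goodSet m T').card := by
  rw [← card_product]
  refine card_le_card_of_injOn (fun q => Fin.cons q.1 q.2) ?_ ?_
  · rintro ⟨x, y⟩ hq
    obtain ⟨h1, h2⟩ := mem_product.1 (mem_coe.1 hq)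
    have h3 := (mem_filter.1 h1).2
    rw [mem_coe, goodSet, mem_filter]
    refine ⟨mem_univ _, ?_, ?_⟩
    · simpa using h3
    · simpa using h2
  · rintro ⟨x, y⟩ _ ⟨x', y'⟩ _ h
    have h1 := congrFun h 0
    have h2 : y = y' := by
      funext i
      have := congrFun h i.succ
      simpa using this
    have h3 : x = x' := by simpa using h1
    rw [h2, h3]

/-- The number of coincidences. -/
theorem card_coincidence_le {s n m : ℕ} (u v : FreeGroup (Fin s)) {j k : ℤ}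
    (hj : IsCoprime j (m : ℤ)) (hk : IsCoprime k (m : ℤ)) (T' : Finset (Fin s → Perm (Fin n)))
    (F : ℕ) (hF : ∀ y : Fin s → Perm (Fin n), ∑ z ∈ T',
      (univ.filter fun X : Perm (Fin n) => FreeGroup.lift y u * X * FreeGroup.lift y v =
        FreeGroup.lift z u * X * FreeGroup.lift z v).card ≤ F) :
    (((goodSet m T') ×ˢ (goodSet m T')).filter fun p =>
      wordMap (pairWord u v j k) n p.1 = wordMap (pairWord u v j k) n p.2).card ≤
      Fintype.card (Fin s → Perm (Fin n)) * F := by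
  classical
  have h1 : ((univ : Finset (Fin s → Perm (Fin n))).sigma fun y => T'.sigma fun z =>
      (univ.filter fun X : Perm (Fin n) => FreeGroup.lift y u * X * FreeGroup.lift y v =
        FreeGroup.lift z u * X * FreeGroup.lift z v)).card ≤
      Fintype.card (Fin s → Perm (Fin n)) * F := by
    rw [card_sigma]
    calc _ ≤ ∑ _y : Fin s → Perm (Fin n), F := by
          refine sum_le_sum fun y _ => ?_
          rw [card_sigma]
          exact hF y
      _ = _ := by rw [sum_const, card_univ, smul_eq_mul]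
  refine le_trans ?_ h1
  refine card_le_card_of_injOn (fun p => ⟨fun i => p.1 i.succ, ⟨fun i => p.2 i.succ,
    (p.1 0) ^ k⟩⟩) ?_ ?_
  · rintro ⟨σ, τ⟩ hp
    obtain ⟨h2, h3⟩ := mem_filter.1 (mem_coe.1 hp)
    obtain ⟨hσ, hτ⟩ := mem_product.1 h2
    have hσ' := (mem_filter.1 hσ).2
    have hτ' := (mem_filter.1 hτ).2
    have e0 := congrFun h3 0
    have e1 := congrFun h3 1
    rw [wordMap_pair_zero, wordMap_pair_zero] at e0
    rw [wordMap_pair_one, wordMap_pair_one] at e1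
    have hx : σ 0 = τ 0 := eq_of_zpow_eq hj hσ'.1 hτ'.1 e0
    simp only [mem_coe, mem_sigma, mem_univ, true_and, mem_filter]
    refine ⟨hτ'.2, ?_⟩
    rw [e1]
    rw [hx]
  · rintro ⟨σ, τ⟩ hp ⟨σ', τ'⟩ hp' heq
    obtain ⟨h2, h3⟩ := mem_filter.1 (mem_coe.1 hp)
    obtain ⟨hσ, hτ⟩ := mem_product.1 h2
    have hσ1 := (mem_filter.1 hσ).2
    have hτ1 := (mem_filter.1 hτ).2
    obtain ⟨h2', h3'⟩ := mem_filter.1 (mem_coe.1 hp')
    obtain ⟨hσ', hτ'⟩ := mem_product.1 h2'
    have hσ1' := (mem_filter.1 hσ').2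
    have hτ1' := (mem_filter.1 hτ').2
    have e0 := congrFun h3 0
    have e0' := congrFun h3' 0
    rw [wordMap_pair_zero, wordMap_pair_zero] at e0 e0'
    have hx : σ 0 = τ 0 := eq_of_zpow_eq hj hσ1.1 hτ1.1 e0
    have hx' : σ' 0 = τ' 0 := eq_of_zpow_eq hj hσ1'.1 hτ1'.1 e0'
    simp only [Sigma.mk.injEq] at heq
    obtain ⟨q1, q2⟩ := heq
    have q3 := eq_of_heq q2
    simp only [Sigma.mk.injEq] at q3
    obtain ⟨q4, q5⟩ := q3
    have q6 : σ 0 = σ' 0 := eq_of_zpow_eq hk hσ1.1 hσ1'.1 (eq_of_heq q5)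
    have r1 : σ = σ' := by
      funext i
      refine Fin.cases q6 (fun i => ?_) i
      exact congrFun q1 i
    have r2 : τ = τ' := by
      funext i
      refine Fin.cases ?_ (fun i => ?_) i
      · rw [← hx, ← hx', q6]
      · exact congrFun q4 i
    rw [r1, r2]

theorem sum_intertwine_right_le {s n : ℕ} (u v : FreeGroup (Fin s)) (K : ℕ) (hn : 0 < n)
    (y : Fin s → Perm (Fin n)) : ∑ z ∈ typical v K n,
      (univ.filter fun X : Perm (Fin n) => FreeGroup.lift y u * X * FreeGroup.lift y v =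
        FreeGroup.lift z u * X * FreeGroup.lift z v).card ≤
      n ^ (4 * K ^ 3 * (core v).length ^ 2 + n / (K + 1)) *
        Fintype.card (Fin s → Perm (Fin n)) * Nat.card (ConjClasses (Perm (Fin n))) := by
  refine le_trans (sum_le_sum fun z _ => ?_) (sum_cent_typical_le v K hn
    ((Equiv.inv (Perm (Fin n))).trans (Equiv.mulLeft (FreeGroup.lift y v))))
  refine le_trans (card_le_card ?_) (card_intertwine_le (FreeGroup.lift y v * (FreeGroup.lift z v)⁻¹)
    ((FreeGroup.lift y u)⁻¹ * FreeGroup.lift z u))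
  intro X hX
  rw [mem_filter] at hX ⊢
  refine ⟨mem_univ _, ?_⟩
  have h1 := hX.2
  calc X * (FreeGroup.lift y v * (FreeGroup.lift z v)⁻¹) =
      (FreeGroup.lift y u)⁻¹ * (FreeGroup.lift y u * X * FreeGroup.lift y v) *
        (FreeGroup.lift z v)⁻¹ := by group
    _ = (FreeGroup.lift y u)⁻¹ * (FreeGroup.lift z u * X * FreeGroup.lift z v) *
        (FreeGroup.lift z v)⁻¹ := by rw [h1]
    _ = (FreeGroup.lift y u)⁻¹ * FreeGroup.lift z u * X := by group

theorem sum_intertwine_left_le {s n : ℕ} (u v : FreeGroup (Fin s)) (K : ℕ) (hn : 0 < n)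
    (y : Fin s → Perm (Fin n)) : ∑ z ∈ typical u K n,
      (univ.filter fun X : Perm (Fin n) => FreeGroup.lift y u * X * FreeGroup.lift y v =
        FreeGroup.lift z u * X * FreeGroup.lift z v).card ≤
      n ^ (4 * K ^ 3 * (core u).length ^ 2 + n / (K + 1)) *
        Fintype.card (Fin s → Perm (Fin n)) * Nat.card (ConjClasses (Perm (Fin n))) := by
  refine le_trans (sum_le_sum fun z _ => ?_) (sum_cent_typical_le u K hn
    (Equiv.mulLeft (FreeGroup.lift y u)⁻¹))
  refine le_trans (card_le_card ?_) (card_intertwine_le' (FreeGroup.lift y v * (FreeGroup.lift z v)⁻¹)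
    ((FreeGroup.lift y u)⁻¹ * FreeGroup.lift z u))
  intro X hX
  rw [mem_filter] at hX ⊢
  refine ⟨mem_univ _, ?_⟩
  have h1 := hX.2
  calc X * (FreeGroup.lift y v * (FreeGroup.lift z v)⁻¹) =
      (FreeGroup.lift y u)⁻¹ * (FreeGroup.lift y u * X * FreeGroup.lift y v) *
        (FreeGroup.lift z v)⁻¹ := by group
    _ = (FreeGroup.lift y u)⁻¹ * (FreeGroup.lift z u * X * FreeGroup.lift z v) *
        (FreeGroup.lift z v)⁻¹ := by rw [h1]
    _ = (FreeGroup.lift y u)⁻¹ * FreeGroup.lift z u * X := by group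

/-- Bounds for the exponents. -/
theorem exponent_bound (ℓ B n : ℕ) (hn : 1 ≤ n) :
    (((4 * (Nat.sqrt (Nat.sqrt n)) ^ 3 * ℓ ^ 2 + n / (Nat.sqrt (Nat.sqrt n) + 1)) +
      (2 * Nat.sqrt n + 1) + (n / (B * Nat.sqrt n + 1) + n % (B * Nat.sqrt n + 1)) : ℕ) : ℝ) ≤
      (4 * ℓ ^ 2 + B + 13) * (n : ℝ) ^ (3 / 4 : ℝ) + (n / (B * Nat.sqrt n + 1) : ℕ) := by
  set K := Nat.sqrt (Nat.sqrt n) with hK
  have hK1 : 1 ≤ K := by
    rw [hK, Nat.le_sqrt, Nat.le_sqrt]
    simpa using hn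
  have h1 : ((K : ℝ)) ^ 3 ≤ (n : ℝ) ^ (3 / 4 : ℝ) := fourth_root_cube_le n
  have h2 : n / (K + 1) ≤ (K + 1) ^ 3 := div_fourth_root_le n
  have h3 : (K + 1) ^ 3 ≤ 8 * K ^ 3 := by
    calc (K + 1) ^ 3 ≤ (2 * K) ^ 3 := Nat.pow_le_pow_left (by omega) 3
      _ = 8 * K ^ 3 := by ring
  have h4 : ((n / (K + 1) : ℕ) : ℝ) ≤ 8 * (n : ℝ) ^ (3 / 4 : ℝ) := by
    have : ((n / (K + 1) : ℕ) : ℝ) ≤ 8 * (K : ℝ) ^ 3 := by exact_mod_cast h2.trans h3
    linarith
  have h5 := sqrt_le_rpow n hn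
  have h6 : n % (B * Nat.sqrt n + 1) ≤ B * Nat.sqrt n :=
    Nat.le_of_lt_succ (Nat.mod_lt _ (Nat.succ_pos _))
  have h7 : ((n % (B * Nat.sqrt n + 1) : ℕ) : ℝ) ≤ B * (n : ℝ) ^ (3 / 4 : ℝ) := by
    have h8 : ((n % (B * Nat.sqrt n + 1) : ℕ) : ℝ) ≤ B * (Nat.sqrt n : ℝ) := by exact_mod_cast h6
    exact h8.trans (mul_le_mul_of_nonneg_left h5 (Nat.cast_nonneg _))
  have h9 : (1 : ℝ) ≤ (n : ℝ) ^ (3 / 4 : ℝ) :=
    Real.one_le_rpow (by exact_mod_cast hn) (by norm_num)
  have h10 : 4 * (K : ℝ) ^ 3 * (ℓ : ℝ) ^ 2 ≤ 4 * (ℓ : ℝ) ^ 2 * (n : ℝ) ^ (3 / 4 : ℝ) := by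
    have : 0 ≤ 4 * (ℓ : ℝ) ^ 2 := by positivity
    nlinarith
  push_cast at h4 h7 ⊢
  linarith

theorem isSAE_pair {s : ℕ} (u v : FreeGroup (Fin s)) {j k : ℤ} (hj : j ≠ 0) (hk : k ≠ 0)
    (w : FreeGroup (Fin s)) (hw : w ≠ 1)
    (hsum : ∀ (n K : ℕ), 0 < n → ∀ y : Fin s → Perm (Fin n), ∑ z ∈ typical w K n,
      (univ.filter fun X : Perm (Fin n) => FreeGroup.lift y u * X * FreeGroup.lift y v =
        FreeGroup.lift z u * X * FreeGroup.lift z v).card ≤
      n ^ (4 * K ^ 3 * (core w).length ^ 2 + n / (K + 1)) *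
        Fintype.card (Fin s → Perm (Fin n)) * Nat.card (ConjClasses (Perm (Fin n)))) :
    IsSAE (pairWord u v j k) := by
  classical
  have hs : 1 ≤ s := by
    rcases Nat.eq_zero_or_pos s with rfl | hs
    · exact absurd (Subsingleton.elim w 1) hw
    · exact hs
  refine isSAE_of_flat (by omega) _ fun η hη => ?_
  set ℓ := (core w).length with hℓ
  set B := (j * k).natAbs with hB
  have hB1 : 1 ≤ B := Nat.one_le_iff_ne_zero.2 (Int.natAbs_ne_zero.2 (mul_ne_zero hj hk))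
  have hev := eventually_pow_le (4 * ℓ ^ 2 + B + 14) η hη
  filter_upwards [hev, eventually_ge_atTop (max 1 (16 * ℓ ^ 2))] with n hn hnbig
  have hn1 : 1 ≤ n := (le_max_left _ _).trans hnbig
  have hnℓ : 16 * ℓ ^ 2 ≤ n := (le_max_right _ _).trans hnbig
  set K := Nat.sqrt (Nat.sqrt n) with hK
  set m := B * Nat.sqrt n + 1 with hm
  have hK1 : 1 ≤ K := by
    rw [hK, Nat.le_sqrt, Nat.le_sqrt]
    simpa using hn1
  have hKsq : K ^ 2 ≤ Nat.sqrt n := Nat.sqrt_le' _
  have hssq : (Nat.sqrt n) ^ 2 ≤ n := Nat.sqrt_le' _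
  have hKℓ : 2 * (K * ℓ) ≤ n := by
    -- `(2 K ℓ) ^ 2 ≤ 4 K ^ 2 ℓ ^ 2 ≤ n ^ 2`
    have h1 : (2 * (K * ℓ)) ^ 2 ≤ n ^ 2 := by
      calc (2 * (K * ℓ)) ^ 2 = K ^ 2 * (4 * ℓ ^ 2) := by ring
        _ ≤ n * n := by
            apply Nat.mul_le_mul
            · have : Nat.sqrt n ≤ n := Nat.sqrt_le_self n
              omega
            · omega
        _ = n ^ 2 := by ring
    exact (Nat.pow_le_pow_iff_left (by norm_num)).1 h1
  have hcop : ∀ i : ℤ, i ∣ j * k → IsCoprime i (m : ℤ) := by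
    intro i hi
    have h1 : (i : ℤ) ∣ (B : ℤ) := by
      rw [hB]
      exact Int.dvd_natAbs.2 hi
    obtain ⟨c, hc⟩ := h1
    refine ⟨-(c * (Nat.sqrt n : ℤ)), 1, ?_⟩
    rw [hm]
    push_cast
    rw [hc]
    ring
  have hcj := hcop j (dvd_mul_right _ _)
  have hck := hcop k (dvd_mul_left _ _)
  -- the exponents
  have hdivm : n / m ≤ Nat.sqrt n := by
    have h1 : n < (Nat.sqrt n + 1) * (Nat.sqrt n + 1) := Nat.lt_succ_sqrt n
    have h2 : Nat.sqrt n + 1 ≤ m := by
      rw [hm]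
      have : Nat.sqrt n ≤ B * Nat.sqrt n := Nat.le_mul_of_pos_left _ hB1
      omega
    have h3 : n / m ≤ n / (Nat.sqrt n + 1) := Nat.div_le_div_left h2 (Nat.succ_pos _)
    have h4 : n / (Nat.sqrt n + 1) < Nat.sqrt n + 1 := Nat.div_lt_of_lt_mul h1
    omega
  have hexp := exponent_bound ℓ B n hn1
  rw [← hK, ← hm] at hexp
  have hdivm' : ((n / m : ℕ) : ℝ) ≤ (n : ℝ) ^ (3 / 4 : ℝ) :=
    (by exact_mod_cast hdivm : ((n / m : ℕ) : ℝ) ≤ (Nat.sqrt n : ℝ)).trans (sqrt_le_rpow n hn1)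
  have hexp2 := hexp.trans (add_le_add_right hdivm' _)
  have hE1 := hn (n / m + n % m) (by
    refine le_trans ?_ (hexp2.trans (le_of_eq ?_))
    · push_cast
      have : (0 : ℝ) ≤ ((4 * K ^ 3 * ℓ ^ 2 + n / (K + 1)) + (2 * Nat.sqrt n + 1) : ℕ) :=
        Nat.cast_nonneg _
      push_cast at this
      linarith
    · ring)
  have hE2 := hn ((4 * K ^ 3 * ℓ ^ 2 + n / (K + 1)) + (2 * Nat.sqrt n + 1)) (by
    refine le_trans ?_ (hexp2.trans (le_of_eq ?_))
    · push_cast
      have : (0 : ℝ) ≤ (n / m + n % m : ℕ) := Nat.cast_nonneg _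
      push_cast at this
      linarith
    · ring)
  refine ⟨goodSet m (typical w K n), ?_, ?_⟩
  · -- the size of the good set
    have h1 := card_goodSet_ge m (typical w K n)
    have h2 := card_roots_ge n m (Nat.succ_pos _)
    have h3 := card_typical_ge hw hK1 hKℓ
    have hcard : Fintype.card (Fin (s + 1) → Perm (Fin n)) =
        Fintype.card (Perm (Fin n)) * Fintype.card (Fin s → Perm (Fin n)) := by
      rw [Fintype.card_fun, Fintype.card_fun, Fintype.card_fin, Fintype.card_fin, pow_succ,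
        mul_comm]
    have h4 : Fintype.card (Fin (s + 1) → Perm (Fin n)) ≤
        2 * n ^ (n / m + n % m) * (goodSet m (typical w K n)).card := by
      rw [hcard]
      calc _ ≤ (n ^ (n / m + n % m) * (univ.filter fun x : Perm (Fin n) => x ^ m = 1).card) *
            (2 * (typical w K n).card) := Nat.mul_le_mul h2 h3
        _ = 2 * n ^ (n / m + n % m) * ((univ.filter fun x : Perm (Fin n) => x ^ m = 1).card *
            (typical w K n).card) := by ring
        _ ≤ _ := Nat.mul_le_mul_left _ h1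
    have h5 : (Fintype.card (Fin (s + 1) → Perm (Fin n)) : ℝ) ≤
        Real.exp (η * n) * (goodSet m (typical w K n)).card := by
      calc (Fintype.card (Fin (s + 1) → Perm (Fin n)) : ℝ) ≤
          2 * (n : ℝ) ^ (n / m + n % m) * (goodSet m (typical w K n)).card := by exact_mod_cast h4
        _ ≤ 2 * ((n : ℝ) + 1) ^ (n / m + n % m) * (goodSet m (typical w K n)).card := by
            gcongr
            linarith
        _ ≤ _ := mul_le_mul_of_nonneg_right hE1 (Nat.cast_nonneg _)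
    rw [Real.exp_neg, inv_mul_le_iff₀ (Real.exp_pos _)]
    exact h5
  · -- the number of coincidences
    have h1 := card_coincidence_le u v hcj hck (typical w K n) _ (hsum n K hn1)
    set N := (((goodSet m (typical w K n)) ×ˢ (goodSet m (typical w K n))).filter fun p =>
      wordMap (pairWord u v j k) n p.1 = wordMap (pairWord u v j k) n p.2).card with hN
    have hcard : Fintype.card (Fin (s + 1) → Perm (Fin n)) =
        Fintype.card (Perm (Fin n)) * Fintype.card (Fin s → Perm (Fin n)) := by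
      rw [Fintype.card_fun, Fintype.card_fun, Fintype.card_fin, Fintype.card_fin, pow_succ,
        mul_comm]
    have hcard2 : Fintype.card (Fin 2 → Perm (Fin n)) = Fintype.card (Perm (Fin n)) ^ 2 := by
      rw [Fintype.card_fun, Fintype.card_fin]
    have h2 : N * Fintype.card (Fin 2 → Perm (Fin n)) ≤
        (n + 1) ^ ((4 * K ^ 3 * ℓ ^ 2 + n / (K + 1)) + (2 * Nat.sqrt n + 1)) *
          Fintype.card (Fin (s + 1) → Perm (Fin n)) ^ 2 := by
      rw [hcard, hcard2]
      set G := Fintype.card (Perm (Fin n))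
      set S := Fintype.card (Fin s → Perm (Fin n))
      calc N * G ^ 2 ≤ (S * (n ^ (4 * K ^ 3 * ℓ ^ 2 + n / (K + 1)) * S *
            Nat.card (ConjClasses (Perm (Fin n))))) * G ^ 2 := Nat.mul_le_mul_right _ h1
        _ ≤ (S * ((n + 1) ^ (4 * K ^ 3 * ℓ ^ 2 + n / (K + 1)) * S *
            (n + 1) ^ (2 * Nat.sqrt n + 1))) * G ^ 2 := by
            gcongr
            · exact Nat.le_succ n
            · exact card_conjClasses_le n
        _ = _ := by
            rw [pow_add (n + 1)]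
            ring
    have h3 : (N : ℝ) * Fintype.card (Fin 2 → Perm (Fin n)) ≤
        ((n : ℝ) + 1) ^ ((4 * K ^ 3 * ℓ ^ 2 + n / (K + 1)) + (2 * Nat.sqrt n + 1)) *
          (Fintype.card (Fin (s + 1) → Perm (Fin n)) : ℝ) ^ 2 := by exact_mod_cast h2
    refine h3.trans (mul_le_mul_of_nonneg_right (le_trans ?_ hE2) (by positivity))
    have : (0 : ℝ) ≤ ((n : ℝ) + 1) ^ ((4 * K ^ 3 * ℓ ^ 2 + n / (K + 1)) +
      (2 * Nat.sqrt n + 1)) := by positivity
    linarith

end Pool.Agent.H11.SAE
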