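import Pool.Agent.H11.SAE.Conc

/-!
# Concentration of measure on symmetric groups
-/

set_option autoImplicit false

namespace Pool.Agent.H11.SAE

open Finset Equiv

/-- The number of points at which two permutations differ. -/
def hd {n : ℕ} (σ τ : Perm (Fin n)) : ℝ := ∑ i, if σ i = τ i then (0 : ℝ) else 1

variable {n : ℕ}

theorem hd_self (σ : Perm (Fin n)) : hd σ σ = 0 := by simp [hd]

theorem hd_nonneg (σ τ : Perm (Fin n)) : 0 ≤ hd σ τ :=
  Finset.sum_nonneg fun i _ => by split_ifs <;> norm_num

theorem hd_le (σ τ : Perm (Fin n)) : hd σ τ ≤ n := by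
  calc hd σ τ ≤ ∑ _i : Fin n, (1 : ℝ) := Finset.sum_le_sum fun i _ => by split_ifs <;> norm_num
    _ = n := by simp

theorem hd_symm (σ τ : Perm (Fin n)) : hd σ τ = hd τ σ := by
  unfold hd
  refine Finset.sum_congr rfl fun i _ => ?_
  by_cases h : σ i = τ i
  · rw [if_pos h, if_pos h.symm]
  · rw [if_neg h, if_neg (Ne.symm h)]

theorem hd_triangle (σ τ ρ : Perm (Fin n)) : hd σ ρ ≤ hd σ τ + hd τ ρ := by
  unfold hd
  rw [← Finset.sum_add_distrib]
  refine Finset.sum_le_sum fun i _ => ?_
  by_cases h : σ i = τ i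
  · by_cases h' : τ i = ρ i
    · rw [if_pos (h.trans h'), if_pos h, if_pos h', add_zero]
    · rw [if_pos h, if_neg h', zero_add]
      split_ifs <;> norm_num
  · rw [if_neg h]
    split_ifs <;> norm_num

theorem hd_mul_left (σ τ ρ : Perm (Fin n)) : hd (ρ * σ) (ρ * τ) = hd σ τ := by
  unfold hd
  refine Finset.sum_congr rfl fun i _ => ?_
  simp only [Perm.mul_apply, EmbeddingLike.apply_eq_iff_eq]

theorem hd_mul_right (σ τ ρ : Perm (Fin n)) : hd (σ * ρ) (τ * ρ) = hd σ τ := by
  unfold hd
  simp only [Perm.mul_apply]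
  exact Equiv.sum_comp ρ (fun i => if σ i = τ i then (0 : ℝ) else 1)

theorem hd_inv (σ τ : Perm (Fin n)) : hd σ⁻¹ τ⁻¹ = hd σ τ := by
  rw [← hd_mul_left _ _ σ, mul_inv_cancel, ← hd_mul_right _ _ τ, one_mul, mul_assoc,
    inv_mul_cancel, mul_one, hd_symm]

theorem hd_mul_le (σ τ σ' τ' : Perm (Fin n)) : hd (σ * τ) (σ' * τ') ≤ hd σ σ' + hd τ τ' := by
  refine (hd_triangle _ (σ' * τ) _).trans ?_
  rw [hd_mul_left, hd_mul_right]

theorem sum_ind_le_one {m : ℕ} (e : Perm (Fin m)) (p : Fin (m + 1)) :
    ∑ x, (if (e x).succ = p then (1 : ℝ) else 0) ≤ 1 := by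
  rw [Finset.sum_boole]
  have : (univ.filter fun x => (e x).succ = p).card ≤ 1 := by
    rw [Finset.card_le_one]
    intro a ha b hb
    have ha' := (Finset.mem_filter.1 ha).2
    have hb' := (Finset.mem_filter.1 hb).2
    exact e.injective (Fin.succ_injective _ (ha'.trans hb'.symm))
  exact_mod_cast this

theorem hd_decompose {m : ℕ} (q q' : Fin (m + 1) × Perm (Fin m)) :
    hd (Perm.decomposeFin.symm q) (Perm.decomposeFin.symm q') ≤
      (if q.1 = q'.1 then (0 : ℝ) else 3) + hd q.2 q'.2 := by
  obtain ⟨p, e⟩ := q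
  obtain ⟨p', e'⟩ := q'
  unfold hd
  rw [Fin.sum_univ_succ]
  simp only [Perm.decomposeFin_symm_apply_zero, Perm.decomposeFin_symm_apply_succ]
  by_cases hp : p = p'
  · subst hp
    simp only [if_true, zero_add, EmbeddingLike.apply_eq_iff_eq, Fin.succ_inj]
    exact le_rfl
  · simp only [if_neg hp]
    have h1 : ∀ x : Fin m, (if swap 0 p (e x).succ = swap 0 p' (e' x).succ then (0 : ℝ) else 1) ≤
        (if e x = e' x then (0 : ℝ) else 1) + (if (e x).succ = p then (1 : ℝ) else 0) +
          (if (e x).succ = p' then (1 : ℝ) else 0) := by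
      intro x
      by_cases he : e x = e' x
      · rw [← he]
        by_cases h1 : (e x).succ = p
        · rw [if_pos rfl, if_pos h1]
          split_ifs <;> norm_num
        · by_cases h2 : (e x).succ = p'
          · rw [if_pos rfl, if_pos h2]
            split_ifs <;> norm_num
          · rw [swap_apply_of_ne_of_ne (Fin.succ_ne_zero _) h1,
              swap_apply_of_ne_of_ne (Fin.succ_ne_zero _) h2, if_pos rfl, if_pos rfl, if_neg h1,
              if_neg h2]
            norm_num
      · rw [if_neg he]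
        split_ifs <;> norm_num
    have h2 := Finset.sum_le_sum fun x (_ : x ∈ (univ : Finset (Fin m))) => h1 x
    rw [Finset.sum_add_distrib, Finset.sum_add_distrib] at h2
    have h3 := sum_ind_le_one e p
    have h4 := sum_ind_le_one e p'
    linarith

theorem lap_perm (n : ℕ) : Lap (fun σ τ : Perm (Fin n) => hd σ τ) (9 * n) := by
  induction n with
  | zero =>
    intro f hf t _
    rw [Fintype.card_unique, Fintype.sum_unique, Fintype.sum_unique]
    simp
  | succ m ih =>
    have h1 : Lap (fun p q : Fin (m + 1) => if p = q then (0 : ℝ) else 3) 9 :=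
      lap_of_diam.mono fun x y => by split_ifs <;> norm_num
    have h2 := (h1.prod ih (fun x => by simp) (fun y => (hd_self y).le))
    have h3 := (h2.congr Perm.decomposeFin).mono (D' := fun σ τ => hd σ τ) (by
      intro σ τ
      have := hd_decompose (Perm.decomposeFin σ) (Perm.decomposeFin τ)
      simpa only [Equiv.symm_apply_apply] using this)
    refine h3.mono_const ?_
    push_cast
    linarith

/-- The `ℓ¹`-product of the (unnormalised) Hamming metrics. -/
def td {n d : ℕ} (s t : Fin d → Perm (Fin n)) : ℝ := ∑ i, hd (s i) (t i)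

theorem td_self {d : ℕ} (s : Fin d → Perm (Fin n)) : td s s = 0 := by simp [td, hd_self]

theorem td_nonneg {d : ℕ} (s t : Fin d → Perm (Fin n)) : 0 ≤ td s t :=
  Finset.sum_nonneg fun _ _ => hd_nonneg _ _

theorem td_le {d : ℕ} (s t : Fin d → Perm (Fin n)) : td s t ≤ d * n := by
  calc td s t ≤ ∑ _i : Fin d, (n : ℝ) := Finset.sum_le_sum fun i _ => hd_le _ _
    _ = d * n := by simp

theorem td_symm {d : ℕ} (s t : Fin d → Perm (Fin n)) : td s t = td t s :=
  Finset.sum_congr rfl fun _ _ => hd_symm _ _

theorem td_triangle {d : ℕ} (s t u : Fin d → Perm (Fin n)) : td s u ≤ td s t + td t u := by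
  unfold td
  rw [← Finset.sum_add_distrib]
  exact Finset.sum_le_sum fun i _ => hd_triangle _ _ _

theorem lap_tuple (n d : ℕ) : Lap (fun s t : Fin d → Perm (Fin n) => td s t) (9 * n * d) := by
  induction d with
  | zero =>
    intro f hf t _
    rw [Fintype.card_unique, Fintype.sum_unique, Fintype.sum_unique]
    simp
  | succ m ih =>
    have h2 := ((lap_perm n).prod ih (fun x => (hd_self x).le) (fun y => (td_self y).le))
    have h3 := (h2.congr (Fin.consEquiv fun _ => Perm (Fin n)).symm).mono
      (D' := fun s t : Fin (m + 1) → Perm (Fin n) => td s t) (by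
      intro s t
      unfold td
      rw [Fin.sum_univ_succ]
      rfl)
    refine h3.mono_const ?_
    push_cast
    linarith

end Pool.Agent.H11.SAE
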