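import Mathlib

/-!
# Fixed points of words in random permutations
-/

set_option autoImplicit false
set_option linter.unusedSectionVars false

namespace Pool.Agent.H11.SAE

open Finset Equiv

variable {ι β : Type} [Fintype ι] [DecidableEq ι] [Fintype β] [DecidableEq β]

/-- The permutation given by a letter. -/
def lp (σ : ι → Perm β) (x : ι × Bool) : Perm β := if x.2 = true then σ x.1 else (σ x.1)⁻¹

/-- The action of a word, the last letter first. -/
def act (σ : ι → Perm β) (L : List (ι × Bool)) (p : β) : β := L.foldr (fun x q => lp σ x q) p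

theorem act_nil (σ : ι → Perm β) (p : β) : act σ [] p = p := rfl

theorem act_cons (σ : ι → Perm β) (x : ι × Bool) (L : List (ι × Bool)) (p : β) :
    act σ (x :: L) p = lp σ x (act σ L p) := rfl

/-- The vertices of the path, the end point first. -/
def verts (σ : ι → Perm β) (L : List (ι × Bool)) (p : β) : List β :=
  L.tails.map fun B => act σ B p

theorem verts_nil (σ : ι → Perm β) (p : β) : verts σ [] p = [p] := rfl

theorem verts_cons (σ : ι → Perm β) (x : ι × Bool) (L : List (ι × Bool)) (p : β) :
    verts σ (x :: L) p = act σ (x :: L) p :: verts σ L p := by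
  simp [verts]

theorem length_verts (σ : ι → Perm β) (L : List (ι × Bool)) (p : β) :
    (verts σ L p).length = L.length + 1 := by
  simp [verts]

theorem act_mem_verts (σ : ι → Perm β) {L B : List (ι × Bool)} (h : B <:+ L) (p : β) :
    act σ B p ∈ verts σ L p :=
  List.mem_map_of_mem ((List.mem_tails _ _).2 h)

theorem suffix_eq_of_act_eq {σ : ι → Perm β} {L B B' : List (ι × Bool)} {p : β}
    (hnd : (verts σ L p).Nodup) (h : B <:+ L) (h' : B' <:+ L) (he : act σ B p = act σ B' p) :
    B = B' :=
  List.inj_on_of_nodup_map hnd ((List.mem_tails _ _).2 h) ((List.mem_tails _ _).2 h') he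

/-- If two tuples of permutations agree along the path then the paths agree. -/
theorem act_congr {σ σ' : ι → Perm β} {p : β} (L : List (ι × Bool))
    (h : ∀ (y : ι × Bool) (B : List (ι × Bool)), (y :: B) <:+ L →
      lp σ' y (act σ B p) = lp σ y (act σ B p)) :
    ∀ B, B <:+ L → act σ' B p = act σ B p := by
  intro B
  induction B with
  | nil => intro _; rfl
  | cons y B ih =>
    intro hB
    have hB' : B <:+ L := (List.suffix_cons y B).trans hB
    rw [act_cons, act_cons, ih hB']
    exact h y B hB

theorem verts_congr {σ σ' : ι → Perm β} {p : β} (L : List (ι × Bool))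
    (h : ∀ (y : ι × Bool) (B : List (ι × Bool)), (y :: B) <:+ L →
      lp σ' y (act σ B p) = lp σ y (act σ B p)) :
    verts σ' L p = verts σ L p :=
  List.map_congr_left fun B hB => act_congr L h B ((List.mem_tails _ _).1 hB)

/-- Redirecting the last step. -/
def redir (σ : ι → Perm β) (x : ι × Bool) (b u : β) : ι → Perm β :=
  Function.update σ x.1 (if x.2 = true then swap b u * σ x.1 else σ x.1 * swap b u)

theorem lp_redir_self (σ : ι → Perm β) (x : ι × Bool) (b u : β) :
    lp (redir σ x b u) x = swap b u * lp σ x := by
  obtain ⟨i, c⟩ := x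
  cases c
  · simp [lp, redir, mul_inv_rev]
  · simp [lp, redir]

theorem lp_redir_inv (σ : ι → Perm β) (x : ι × Bool) (b u : β) :
    lp (redir σ x b u) (x.1, !x.2) = lp σ (x.1, !x.2) * swap b u := by
  obtain ⟨i, c⟩ := x
  cases c
  · simp [lp, redir]
  · simp [lp, redir, mul_inv_rev]

theorem lp_redir_ne (σ : ι → Perm β) (x y : ι × Bool) (b u : β) (h : y.1 ≠ x.1) :
    lp (redir σ x b u) y = lp σ y := by
  simp [lp, redir, Function.update_of_ne h]

theorem lp_inv (σ : ι → Perm β) (x : ι × Bool) : lp σ (x.1, !x.2) = (lp σ x)⁻¹ := by
  obtain ⟨i, c⟩ := x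
  cases c <;> simp [lp]

/-- The redirection does not change the path before the last step. -/
theorem verts_redir {σ : ι → Perm β} {x : ι × Bool} {L : List (ι × Bool)} {p u : β}
    (hred : FreeGroup.IsReduced (x :: L)) (hnd : (verts σ L p).Nodup)
    (hu : u ∉ verts σ L p) :
    verts (redir σ x (act σ (x :: L) p) u) L p = verts σ L p := by
  apply verts_congr
  intro y B hB
  have hBL : B <:+ L := (List.suffix_cons y B).trans hB
  set b := act σ (x :: L) p with hb
  have hq : act σ B p ≠ u := fun h => hu (h ▸ act_mem_verts σ hBL p)
  have hq' : act σ (y :: B) p ≠ u := fun h => hu (h ▸ act_mem_verts σ hB p)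
  have hne : B ≠ L := by
    rintro rfl
    have := hB.length_le
    simp at this
  by_cases hi : y.1 = x.1
  · by_cases hc : y.2 = x.2
    · have hyx : y = x := Prod.ext hi hc
      subst hyx
      rw [lp_redir_self, Perm.mul_apply]
      apply swap_apply_of_ne_of_ne _ hq'
      intro h
      have h1 : act σ B p = act σ L p := (lp σ y).injective h
      exact hne (suffix_eq_of_act_eq hnd hBL (List.suffix_refl L) h1)
    · have hyx : y = (x.1, !x.2) := by
        refine Prod.ext hi ?_
        cases h1 : y.2 <;> cases h2 : x.2 <;> simp_all
      have h3 : act σ B p ≠ b := by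
        intro h
        have h1 : act σ (y :: B) p = act σ L p := by
          rw [act_cons, hyx, lp_inv, h, hb, act_cons]
          exact (lp σ x).symm_apply_apply _
        have h2 := suffix_eq_of_act_eq hnd hB (List.suffix_refl L) h1
        rw [← h2] at hred
        have h4 : x.1 = y.1 → x.2 = y.2 := by
          have := hred
          rw [FreeGroup.IsReduced, List.isChain_cons_cons] at this
          exact this.1
        exact hc (h4 hi.symm).symm
      rw [hyx, lp_redir_inv, Perm.mul_apply, swap_apply_of_ne_of_ne h3 hq]
  · rw [lp_redir_ne _ _ _ _ _ hi]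

/-- The tuples for which the last step closes a simple path are rare. -/
theorem card_close_le (x : ι × Bool) (L : List (ι × Bool)) (p : β)
    (hred : FreeGroup.IsReduced (x :: L)) :
    ((univ : Finset (ι → Perm β)).filter fun σ =>
      (verts σ L p).Nodup ∧ act σ (x :: L) p ∈ verts σ L p).card *
        (Fintype.card β - (L.length + 1)) ≤
      Fintype.card (ι → Perm β) * (L.length + 1) := by
  classical
  set E := (univ : Finset (ι → Perm β)).filter fun σ =>
      (verts σ L p).Nodup ∧ act σ (x :: L) p ∈ verts σ L p with hE
  -- sources
  have h1 : E.card * (Fintype.card β - (L.length + 1)) ≤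
      (E.sigma fun σ => univ \ (verts σ L p).toFinset).card := by
    rw [card_sigma]
    calc E.card * (Fintype.card β - (L.length + 1)) =
        ∑ _σ ∈ E, (Fintype.card β - (L.length + 1)) := by rw [sum_const, smul_eq_mul]
      _ ≤ ∑ σ ∈ E, (univ \ (verts σ L p).toFinset).card := by
          refine sum_le_sum fun σ _ => ?_
          rw [card_sdiff_of_subset (subset_univ _), card_univ]
          have := List.toFinset_card_le (verts σ L p)
          rw [length_verts] at this
          omega
  -- targets
  have h2 : ((univ : Finset (ι → Perm β)).sigma fun σ => (verts σ L p).toFinset).card ≤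
      Fintype.card (ι → Perm β) * (L.length + 1) := by
    rw [card_sigma]
    calc ∑ σ, (verts σ L p).toFinset.card ≤ ∑ _σ : ι → Perm β, (L.length + 1) := by
          refine sum_le_sum fun σ _ => ?_
          have := List.toFinset_card_le (verts σ L p)
          rwa [length_verts] at this
      _ = Fintype.card (ι → Perm β) * (L.length + 1) := by
          rw [sum_const, smul_eq_mul, card_univ]
  refine h1.trans (le_trans ?_ h2)
  refine card_le_card_of_injOn
    (fun q => ⟨redir q.1 x (act q.1 (x :: L) p) q.2, act q.1 (x :: L) p⟩) ?_ ?_
  · rintro ⟨σ, u⟩ hq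
    rw [mem_coe, mem_sigma] at hq
    obtain ⟨hσ, hu⟩ := hq
    have hσ' := (mem_filter.1 hσ).2
    have hu' : u ∉ verts σ L p := by simpa using hu
    simp only [mem_coe, mem_sigma, mem_univ, true_and, List.mem_toFinset]
    rw [verts_redir hred hσ'.1 hu']
    exact hσ'.2
  · rintro ⟨σ, u⟩ hq ⟨τ, v⟩ hq' heq
    rw [mem_coe, mem_sigma] at hq hq'
    obtain ⟨hσ, hu⟩ := hq
    obtain ⟨hτ, hv⟩ := hq'
    have hσ' := (mem_filter.1 hσ).2
    have hτ' := (mem_filter.1 hτ).2
    have hu' : u ∉ verts σ L p := by simpa using hu
    have hv' : v ∉ verts τ L p := by simpa using hv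
    rw [Sigma.mk.injEq] at heq
    obtain ⟨e1, e2⟩ := heq
    have e2' : act σ (x :: L) p = act τ (x :: L) p := eq_of_heq e2
    set b := act σ (x :: L) p with hb
    rw [← e2'] at e1
    -- the end point of the redirected path is `u`
    have k1 : act (redir σ x b u) L p = act σ L p := by
      have := verts_redir hred hσ'.1 hu'
      cases L with
      | nil => rfl
      | cons y L =>
        rw [verts_cons, verts_cons] at this
        exact (List.cons.inj this).1
    have k2 : act (redir τ x b v) L p = act τ L p := by
      have := verts_redir hred hτ'.1 hv'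
      rw [← e2'] at this
      cases L with
      | nil => rfl
      | cons y L =>
        rw [verts_cons, verts_cons] at this
        exact (List.cons.inj this).1
    have k3 : act (redir σ x b u) (x :: L) p = u := by
      rw [act_cons, k1, lp_redir_self, Perm.mul_apply, ← act_cons, ← hb, swap_apply_left]
    have k4 : act (redir τ x b v) (x :: L) p = v := by
      rw [act_cons, k2, lp_redir_self, Perm.mul_apply, ← act_cons, ← e2', swap_apply_left]
    have k5 : u = v := by rw [← k3, ← k4, e1]
    subst k5
    have k6 : σ = τ := by
      have hr : ∀ ρ : ι → Perm β, redir (redir ρ x b u) x b u = ρ := by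
        intro ρ
        obtain ⟨i, c⟩ := x
        funext j
        by_cases hj : j = i
        · subst hj
          cases c
          · simp [redir, mul_assoc]
          · simp [redir, ← mul_assoc]
        · simp [redir, Function.update_of_ne hj]
      rw [← hr σ, ← hr τ, e1]
    subst k6
    rfl

/-- The tuples for which the path is not simple are rare. -/
theorem card_not_nodup_le (L : List (ι × Bool)) (p : β) (hred : FreeGroup.IsReduced L) (m : ℕ)
    (hm : L.length ≤ m) :
    ((univ : Finset (ι → Perm β)).filter fun σ => ¬ (verts σ L p).Nodup).card *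
        (Fintype.card β - m) ≤ Fintype.card (ι → Perm β) * (L.length * m) := by
  classical
  induction L with
  | nil => simp [verts_nil]
  | cons x L ih =>
    have hL : L.length + 1 ≤ m := by simpa using hm
    have h1 := ih (List.IsChain.tail hred) (by omega)
    have h2 := card_close_le x L p hred
    have h3 : ((univ : Finset (ι → Perm β)).filter fun σ => ¬ (verts σ (x :: L) p).Nodup).card ≤
        ((univ : Finset (ι → Perm β)).filter fun σ => ¬ (verts σ L p).Nodup).card +
        ((univ : Finset (ι → Perm β)).filter fun σ =>
          (verts σ L p).Nodup ∧ act σ (x :: L) p ∈ verts σ L p).card := by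
      rw [← card_union_of_disjoint]
      · apply card_le_card
        intro σ hσ
        rw [mem_filter, verts_cons, List.nodup_cons] at hσ
        simp only [mem_union, mem_filter, mem_univ, true_and]
        have := hσ.2
        tauto
      · rw [disjoint_filter]
        intro σ _ h h'
        exact h h'.1
    have h4 : Fintype.card β - m ≤ Fintype.card β - (L.length + 1) := by omega
    calc _ ≤ (((univ : Finset (ι → Perm β)).filter fun σ => ¬ (verts σ L p).Nodup).card +
        ((univ : Finset (ι → Perm β)).filter fun σ =>
          (verts σ L p).Nodup ∧ act σ (x :: L) p ∈ verts σ L p).card) *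
          (Fintype.card β - m) := Nat.mul_le_mul_right _ h3
      _ ≤ Fintype.card (ι → Perm β) * (L.length * m) +
          Fintype.card (ι → Perm β) * (L.length + 1) := by
          rw [add_mul]
          exact add_le_add h1 ((Nat.mul_le_mul_left _ h4).trans h2)
      _ ≤ Fintype.card (ι → Perm β) * ((x :: L).length * m) := by
          rw [← mul_add]
          apply Nat.mul_le_mul_left
          rw [List.length_cons, add_mul, one_mul]
          omega

/-- A nonempty reduced word has few fixed points. -/
theorem card_fix_le (L : List (ι × Bool)) (p : β) (hred : FreeGroup.IsReduced L) (hne : L ≠ []) :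
    ((univ : Finset (ι → Perm β)).filter fun σ => act σ L p = p).card *
        (Fintype.card β - L.length) ≤ Fintype.card (ι → Perm β) * L.length ^ 2 := by
  classical
  refine le_trans (Nat.mul_le_mul_right _ (card_le_card ?_))
    ((card_not_nodup_le L p hred L.length le_rfl).trans (by rw [sq]))
  intro σ hσ
  rw [mem_filter] at hσ ⊢
  refine ⟨mem_univ _, fun hnd => ?_⟩
  have h1 : act σ L p = act σ [] p := hσ.2
  exact hne (suffix_eq_of_act_eq hnd (List.suffix_refl L) (List.nil_suffix) h1)

theorem act_eq_lift {s n : ℕ} (σ : Fin s → Perm (Fin n)) (L : List (Fin s × Bool)) (p : Fin n) :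
    act σ L p = FreeGroup.lift σ (FreeGroup.mk L) p := by
  induction L with
  | nil => rfl
  | cons x L ih =>
    have h1 : FreeGroup.mk (x :: L) = FreeGroup.mk [x] * FreeGroup.mk L := by
      rw [FreeGroup.mul_mk]
      rfl
    rw [act_cons, h1, map_mul, Perm.mul_apply, ← ih]
    congr 1
    obtain ⟨i, c⟩ := x
    cases c
    · simp [lp, FreeGroup.lift_mk]
    · simp [lp, FreeGroup.lift_mk]

end Pool.Agent.H11.SAE
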